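import Pool.Agent.Lib.SL.Defs

/-!
# Bounded memory (MP_678664_lc), row K1: moments of the label products, L2 form
-/

set_option autoImplicit false

namespace Pool.Agent.KCM

open Finset Pool.Agent.SL

/-- number of pairs of elements of `p` which agree on `B` -/
def Wp {k : ℕ} {α : Type} [DecidableEq α] (B : Finset (Fin k)) (p : Finset (Fin k → α)) : ℕ :=
  ((p ×ˢ p).filter (fun z => ∀ i ∈ B, z.1 i = z.2 i)).card

namespace K1x

theorem exp_le (y : ℝ) : Real.exp y ≤ y + Real.exp (y ^ 2) := by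
  have h0 : y ^ 2 + 1 ≤ Real.exp (y ^ 2) := Real.add_one_le_exp _
  by_cases h : |y| ≤ 1
  · have h1 := Real.abs_exp_sub_one_sub_id_le h
    have h2 := (abs_le.1 h1).2
    linarith
  · rw [not_le] at h
    rcases lt_abs.1 h with h | h
    · have : Real.exp y ≤ Real.exp (y ^ 2) := Real.exp_le_exp.2 (by nlinarith)
      linarith
    · have h1 : Real.exp y ≤ 1 := Real.exp_le_one_iff.2 (by linarith)
      nlinarith

/-- one coordinate -/
theorem one {m : ℕ} (l : Fin m) (x : ℝ) :
    ∑ v : Fin m, Real.exp (x * ((m : ℝ) * (if v = l then 1 else 0) - 1)) ≤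
      (m : ℝ) * Real.exp (x ^ 2 * (m : ℝ) ^ 2) := by
  have hm : (1 : ℝ) ≤ m := by
    have := l.pos
    exact_mod_cast this
  have h1 : ∀ v : Fin m, Real.exp (x * ((m : ℝ) * (if v = l then 1 else 0) - 1)) ≤
      x * ((m : ℝ) * (if v = l then 1 else 0) - 1) + Real.exp (x ^ 2 * (m : ℝ) ^ 2) := by
    intro v
    refine (exp_le _).trans ?_
    have : (x * ((m : ℝ) * (if v = l then 1 else 0) - 1)) ^ 2 ≤ x ^ 2 * (m : ℝ) ^ 2 := by
      rw [mul_pow]
      refine mul_le_mul_of_nonneg_left ?_ (sq_nonneg x)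
      split_ifs
      · nlinarith
      · nlinarith
    have := Real.exp_le_exp.2 this
    linarith
  refine (sum_le_sum fun v _ => h1 v).trans ?_
  rw [sum_add_distrib, ← mul_sum, sum_const, card_univ, Fintype.card_fin, nsmul_eq_mul]
  have h2 : ∑ v : Fin m, ((m : ℝ) * (if v = l then 1 else 0) - 1) = 0 := by
    rw [sum_sub_distrib, ← mul_sum, sum_ite_eq' univ l]
    simp
  rw [h2]
  linarith

/-- exponential moment -/
theorem expo {α : Type} [Fintype α] [DecidableEq α] {m : ℕ} (l : Fin m) (Y : α → ℝ) (t : ℝ) :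
    ∑ h : α → Fin m, Real.exp (t * ∑ a, ((m : ℝ) * (if h a = l then 1 else 0) - 1) * Y a) ≤
      (Fintype.card (α → Fin m) : ℝ) * Real.exp (t ^ 2 * (m : ℝ) ^ 2 * ∑ a, Y a ^ 2) := by
  have h1 : ∀ h : α → Fin m,
      Real.exp (t * ∑ a, ((m : ℝ) * (if h a = l then 1 else 0) - 1) * Y a) =
        ∏ a, Real.exp ((t * Y a) * ((m : ℝ) * (if h a = l then 1 else 0) - 1)) := by
    intro h
    rw [← Real.exp_sum, mul_sum]
    congr 1
    refine sum_congr rfl fun a _ => ?_
    ring
  rw [sum_congr rfl fun h _ => h1 h]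
  have h2 := Finset.prod_univ_sum (fun _ : α => (univ : Finset (Fin m)))
    (fun a v => Real.exp ((t * Y a) * ((m : ℝ) * (if v = l then 1 else 0) - 1)))
  rw [Fintype.piFinset_univ] at h2
  rw [← h2]
  have h3 : (Fintype.card (α → Fin m) : ℝ) * Real.exp (t ^ 2 * (m : ℝ) ^ 2 * ∑ a, Y a ^ 2) =
      ∏ a : α, ((m : ℝ) * Real.exp ((t * Y a) ^ 2 * (m : ℝ) ^ 2)) := by
    rw [prod_mul_distrib, prod_const, card_univ, ← Real.exp_sum, Fintype.card_fun,
      Fintype.card_fin, Nat.cast_pow]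
    congr 2
    rw [mul_sum]
    refine sum_congr rfl fun a _ => ?_
    ring
  rw [h3]
  exact prod_le_prod (fun a _ => sum_nonneg fun v _ => (Real.exp_pos _).le)
    fun a _ => one l (t * Y a)

/-- Khintchine -/
theorem khin {α : Type} [Fintype α] [DecidableEq α] {m κ : ℕ} (hκ : 1 ≤ κ) (l : Fin m)
    (Y : α → ℝ) :
    ∑ h : α → Fin m, (∑ a, ((m : ℝ) * (if h a = l then 1 else 0) - 1) * Y a) ^ (2 * κ) ≤
      (Fintype.card (α → Fin m) : ℝ) * (24 * (κ : ℝ) * (m : ℝ) ^ 2 * ∑ a, Y a ^ 2) ^ κ := by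
  have hm : (1 : ℝ) ≤ m := by
    have := l.pos
    exact_mod_cast this
  have hκ' : (1 : ℝ) ≤ κ := by exact_mod_cast hκ
  set S : ℝ := ∑ a, Y a ^ 2 with hS
  have hS0 : 0 ≤ S := sum_nonneg fun a _ => sq_nonneg _
  rcases hS0.eq_or_lt with h0 | hSp
  · have hY : ∀ a, Y a = 0 := by
      intro a
      have := (sum_eq_zero_iff_of_nonneg (fun a _ => sq_nonneg (Y a))).1 (hS ▸ h0.symm) a
        (mem_univ a)
      exact pow_eq_zero_iff (by norm_num) |>.1 this
    have : ∀ h : α → Fin m,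
        (∑ a, ((m : ℝ) * (if h a = l then 1 else 0) - 1) * Y a) ^ (2 * κ) = 0 := by
      intro h
      rw [sum_eq_zero fun a _ => by rw [hY a, mul_zero]]
      exact zero_pow (by omega)
    rw [sum_congr rfl fun h _ => this h, sum_const_zero]
    positivity
  · set t : ℝ := Real.sqrt (κ / ((m : ℝ) ^ 2 * S)) with ht
    have ht2 : t ^ 2 = κ / ((m : ℝ) ^ 2 * S) := Real.sq_sqrt (by positivity)
    have htp : 0 < t := Real.sqrt_pos.2 (by positivity)
    have hexp : t ^ 2 * (m : ℝ) ^ 2 * S = κ := by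
      rw [ht2]
      field_simp
    set X : (α → Fin m) → ℝ := fun h =>
      ∑ a, ((m : ℝ) * (if h a = l then 1 else 0) - 1) * Y a with hX
    have h1 : ∀ h, t ^ (2 * κ) * X h ^ (2 * κ) ≤
        ((2 * κ).factorial : ℝ) * (Real.exp (t * X h) + Real.exp (-t * X h)) := by
      intro h
      have h2 := Real.pow_div_factorial_le_exp |t * X h| (abs_nonneg _) (2 * κ)
      rw [div_le_iff₀ (by positivity), (even_two_mul κ).pow_abs, mul_pow] at h2
      refine h2.trans ?_
      rw [mul_comm]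
      refine mul_le_mul_of_nonneg_left ?_ (by positivity)
      rcases abs_choice (t * X h) with h3 | h3
      · rw [h3]
        have := Real.exp_pos (-t * X h)
        linarith
      · rw [h3, ← neg_mul]
        have := Real.exp_pos (t * X h)
        linarith
    have h4 : t ^ (2 * κ) * ∑ h, X h ^ (2 * κ) ≤
        ((2 * κ).factorial : ℝ) * (2 * ((Fintype.card (α → Fin m) : ℝ) * Real.exp κ)) := by
      rw [mul_sum]
      refine (sum_le_sum fun h _ => h1 h).trans ?_
      rw [← mul_sum, sum_add_distrib]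
      refine mul_le_mul_of_nonneg_left ?_ (by positivity)
      have e1 := expo (α := α) l Y t
      have e2 := expo (α := α) l Y (-t)
      rw [← hS, neg_sq, hexp] at e2
      rw [← hS, hexp] at e1
      linarith
    have h5 : ((2 * κ).factorial : ℝ) ≤ (2 * (κ : ℝ)) ^ (2 * κ) := by
      have := Nat.factorial_le_pow (2 * κ)
      exact_mod_cast this
    have h6 : (2 : ℝ) ≤ 2 ^ κ := by
      calc (2 : ℝ) = 2 ^ 1 := by norm_num
        _ ≤ 2 ^ κ := pow_le_pow_right₀ (by norm_num) hκ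
    have h7 : Real.exp κ ≤ 3 ^ κ := by
      have : Real.exp κ = Real.exp 1 ^ κ := by rw [← Real.exp_nat_mul, mul_one]
      rw [this]
      exact pow_le_pow_left₀ (Real.exp_pos _).le (by linarith [Real.exp_one_lt_d9]) _
    have h8 : t ^ (2 * κ) * ∑ h, X h ^ (2 * κ) ≤ (2 * (κ : ℝ)) ^ (2 * κ) *
        (2 ^ κ * ((Fintype.card (α → Fin m) : ℝ) * 3 ^ κ)) := by
      refine h4.trans ?_
      gcongr
    have h9 : t ^ (2 * κ) = (κ / ((m : ℝ) ^ 2 * S)) ^ κ := by rw [pow_mul, ht2]
    have hc : 0 < (κ / ((m : ℝ) ^ 2 * S)) ^ κ := by positivity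
    rw [h9] at h8
    refine le_of_mul_le_mul_left (h8.trans (le_of_eq ?_)) hc
    have e1 : (2 * (κ : ℝ)) ^ (2 * κ) = (4 * (κ : ℝ) ^ 2) ^ κ := by
      rw [pow_mul]
      congr 1
      ring
    rw [e1]
    have e2 : (κ / ((m : ℝ) ^ 2 * S)) ^ κ *
        ((Fintype.card (α → Fin m) : ℝ) * (24 * (κ : ℝ) * (m : ℝ) ^ 2 * S) ^ κ) =
        (Fintype.card (α → Fin m) : ℝ) *
          ((κ / ((m : ℝ) ^ 2 * S)) * (24 * (κ : ℝ) * (m : ℝ) ^ 2 * S)) ^ κ := by
      rw [mul_pow]
      ring
    have e3 : (κ / ((m : ℝ) ^ 2 * S)) * (24 * (κ : ℝ) * (m : ℝ) ^ 2 * S) =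
        4 * (κ : ℝ) ^ 2 * (2 * 3) := by
      have hm0 : (m : ℝ) ≠ 0 := by positivity
      field_simp
      ring
    rw [e2, e3, mul_pow (4 * (κ : ℝ) ^ 2) (2 * 3) κ, mul_pow (2 : ℝ) 3 κ]
    ring

/-- Minkowski in `L^κ` -/
theorem mink {G ι : Type} [Fintype G] [Fintype ι] {κ : ℕ} (hκ : 1 ≤ κ) (Z : ι → G → ℝ)
    (w : ι → ℝ) (N : ℝ) (hZ : ∀ a g, 0 ≤ Z a g) (hw : ∀ a, 0 ≤ w a) (hN : 0 ≤ N)
    (h : ∀ a, ∑ g, Z a g ^ κ ≤ N * w a ^ κ) :
    ∑ g, (∑ a, Z a g) ^ κ ≤ N * (∑ a, w a) ^ κ := by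
  have hz : ∀ a, w a = 0 → ∀ g, Z a g = 0 := by
    intro a ha g
    have h1 := h a
    rw [ha, zero_pow (by omega), mul_zero] at h1
    have h2 : ∑ g, Z a g ^ κ = 0 :=
      le_antisymm h1 (sum_nonneg fun g _ => pow_nonneg (hZ a g) κ)
    have h3 := (sum_eq_zero_iff_of_nonneg fun g _ => pow_nonneg (hZ a g) κ).1 h2 g (mem_univ g)
    exact pow_eq_zero_iff (by omega) |>.1 h3
  set s : ℝ := ∑ a, w a with hs
  have hs0 : 0 ≤ s := sum_nonneg fun a _ => hw a
  rcases hs0.eq_or_lt with h0 | hsp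
  · have h1 : ∀ a, w a = 0 := fun a =>
      (sum_eq_zero_iff_of_nonneg fun a _ => hw a).1 (hs ▸ h0.symm) a (mem_univ a)
    have h2 : ∀ g, (∑ a, Z a g) ^ κ = 0 := by
      intro g
      rw [sum_eq_zero fun a _ => hz a (h1 a) g]
      exact zero_pow (by omega)
    rw [sum_congr rfl fun g _ => h2 g, sum_const_zero]
    positivity
  · have h1 : ∀ g, (∑ a, Z a g) ^ κ ≤ s ^ κ * ∑ a, (w a / s) * (Z a g / w a) ^ κ := by
      intro g
      have e1 : ∑ a, Z a g = s * ∑ a, (w a / s) * (Z a g / w a) := by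
        rw [mul_sum]
        refine sum_congr rfl fun a _ => ?_
        by_cases ha : w a = 0
        · rw [ha, hz a ha g]
          simp
        · field_simp
      rw [e1, mul_pow]
      refine mul_le_mul_of_nonneg_left ?_ (by positivity)
      refine Real.pow_arith_mean_le_arith_mean_pow univ _ _ (fun a _ => div_nonneg (hw a) hs0) ?_
        (fun a _ => div_nonneg (hZ a g) (hw a)) κ
      rw [← sum_div, ← hs, div_self hsp.ne']
    refine (sum_le_sum fun g _ => h1 g).trans ?_
    rw [← mul_sum, sum_comm, mul_comm N]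
    refine mul_le_mul_of_nonneg_left ?_ (by positivity)
    have h2 : ∀ a, ∑ g, (w a / s) * (Z a g / w a) ^ κ ≤ (w a / s) * N := by
      intro a
      rw [← mul_sum]
      refine mul_le_mul_of_nonneg_left ?_ (div_nonneg (hw a) hs0)
      by_cases ha : w a = 0
      · rw [ha]
        have : ∀ g, (Z a g / 0) ^ κ = 0 := fun g => by
          rw [div_zero]
          exact zero_pow (by omega)
        rw [sum_congr rfl fun g _ => this g, sum_const_zero]
        exact hN
      · have hwp : 0 < w a := lt_of_le_of_ne (hw a) (Ne.symm ha)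
        simp_rw [div_pow]
        rw [← sum_div, div_le_iff₀ (by positivity)]
        exact h a
    refine (sum_le_sum fun a _ => h2 a).trans (le_of_eq ?_)
    rw [← sum_mul, ← sum_div, ← hs, div_self hsp.ne', one_mul]

/-- averaging over one table -/
theorem upd {k : ℕ} {H : Type} [Fintype H] (i : Fin k) (Φ : (Fin k → H) → ℝ) :
    ∑ g : Fin k → H, ∑ h : H, Φ (Function.update g i h) =
      (Fintype.card H : ℝ) * ∑ g : Fin k → H, Φ g := by
  classical
  have e1 : ∑ g : Fin k → H, ∑ h : H, Φ (Function.update g i h) =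
      ∑ z : (Fin k → H) × H, Φ (Function.update z.1 i z.2) := by
    rw [← univ_product_univ, sum_product]
  have e2 : (Fintype.card H : ℝ) * ∑ g : Fin k → H, Φ g =
      ∑ z : (Fin k → H) × H, Φ z.1 := by
    rw [← univ_product_univ, sum_product, mul_sum]
    refine sum_congr rfl fun g _ => ?_
    dsimp only
    rw [sum_const, card_univ, nsmul_eq_mul]
  rw [e1, e2]
  refine sum_nbij' (fun z => (Function.update z.1 i z.2, z.1 i))
    (fun z => (Function.update z.1 i z.2, z.1 i)) (fun _ _ => mem_univ _) (fun _ _ => mem_univ _)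
    ?_ ?_ ?_
  · rintro ⟨g, h⟩ _
    simp
  · rintro ⟨g, h⟩ _
    simp
  · rintro ⟨g, h⟩ _
    rfl

theorem Wp_insert {k : ℕ} {α : Type} [Fintype α] [DecidableEq α] (B : Finset (Fin k)) (i : Fin k)
    (p : Finset (Fin k → α)) :
    ∑ a : α, Wp B (p.filter (fun x => x i = a)) = Wp (insert i B) p := by
  unfold Wp
  rw [card_eq_sum_card_fiberwise (f := fun z : (Fin k → α) × (Fin k → α) => z.1 i)
    (t := (univ : Finset α)) (fun _ _ => by simp)]
  refine sum_congr rfl fun a _ => ?_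
  congr 1
  ext z
  simp only [mem_filter, mem_product, mem_insert, forall_eq_or_imp]
  constructor
  · rintro ⟨⟨⟨h1, h2⟩, h3, h4⟩, h5⟩
    exact ⟨⟨⟨h1, h3⟩, by rw [h2, h4], h5⟩, h2⟩
  · rintro ⟨⟨⟨h1, h2⟩, h3, h4⟩, h5⟩
    exact ⟨⟨⟨h1, h5⟩, h2, by rw [← h3, h5]⟩, h4⟩

end K1x

open K1x in
/-- K1 -/
theorem k1 {k m κ : ℕ} {α : Type} [Fintype α] [DecidableEq α] (hm : 1 ≤ m) (hκ : 1 ≤ κ)
    (η : Fin k → Fin m) (B : Finset (Fin k)) : ∀ p : Finset (Fin k → α),
    ∑ g : Fin k → α → Fin m, (∑ x ∈ p, Qf g η B x) ^ (2 * κ) ≤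
      (Fintype.card (Fin k → α → Fin m) : ℝ) *
        ((24 * (κ : ℝ) * (m : ℝ) ^ 2) ^ B.card * (Wp B p : ℝ)) ^ κ := by
  classical
  induction B using Finset.induction_on with
  | empty =>
    intro p
    have h1 : ∀ g : Fin k → α → Fin m, (∑ x ∈ p, Qf g η ∅ x) ^ (2 * κ) =
        ((p.card : ℝ) ^ 2) ^ κ := by
      intro g
      rw [← pow_mul]
      congr 1
      simp [Qf]
    have h2 : (Wp (∅ : Finset (Fin k)) p : ℝ) = (p.card : ℝ) ^ 2 := by
      unfold Wp
      simp [card_product, sq]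
    rw [sum_congr rfl fun g _ => h1 g, sum_const, card_univ, nsmul_eq_mul, card_empty, pow_zero,
      one_mul, h2]
  | insert i B hi ih =>
    intro p
    set Y : α → (Fin k → α → Fin m) → ℝ := fun a g =>
      ∑ x ∈ p.filter (fun x => x i = a), Qf g η B x with hY
    have hYu : ∀ a g h, Y a (Function.update g i h) = Y a g := by
      intro a g h
      rw [hY]
      dsimp only
      refine sum_congr rfl fun x _ => ?_
      unfold Qf
      refine prod_congr rfl fun j hj => ?_
      have : j ≠ i := fun e => hi (e ▸ hj)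
      rw [Function.update_of_ne this]
    have hX : ∀ g : Fin k → α → Fin m, ∑ x ∈ p, Qf g η (insert i B) x =
        ∑ a, ((m : ℝ) * (if g i a = η i then 1 else 0) - 1) * Y a g := by
      intro g
      rw [← sum_fiberwise_of_maps_to (g := fun x : Fin k → α => x i) (t := (univ : Finset α))
        (fun _ _ => mem_univ _)]
      refine sum_congr rfl fun a _ => ?_
      rw [hY]
      dsimp only
      rw [mul_sum]
      refine sum_congr rfl fun x hx => ?_
      unfold Qf
      rw [prod_insert hi, (mem_filter.1 hx).2]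
    set C : ℝ := 24 * (κ : ℝ) * (m : ℝ) ^ 2 with hC
    have hC0 : 0 ≤ C := by positivity
    set NH : ℝ := (Fintype.card (α → Fin m) : ℝ) with hNH
    have hne : Nonempty (α → Fin m) := ⟨fun _ => η i⟩
    have hNH0 : 0 < NH := by
      rw [hNH]
      exact_mod_cast Fintype.card_pos
    have h1 : NH * ∑ g : Fin k → α → Fin m, (∑ x ∈ p, Qf g η (insert i B) x) ^ (2 * κ) ≤
        NH * ∑ g : Fin k → α → Fin m, (C * ∑ a, Y a g ^ 2) ^ κ := by
      rw [hNH, ← upd i, mul_sum]
      refine sum_le_sum fun g _ => ?_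
      have e1 : ∀ h : α → Fin m,
          (∑ x ∈ p, Qf (Function.update g i h) η (insert i B) x) ^ (2 * κ) =
            (∑ a, ((m : ℝ) * (if h a = η i then 1 else 0) - 1) * Y a g) ^ (2 * κ) := by
        intro h
        rw [hX]
        congr 1
        refine sum_congr rfl fun a _ => ?_
        rw [hYu, Function.update_self]
      rw [sum_congr rfl fun h _ => e1 h]
      exact khin hκ (η i) fun a => Y a g
    have h2 := le_of_mul_le_mul_left h1 hNH0
    refine h2.trans ?_
    simp_rw [mul_pow C]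
    rw [← mul_sum]
    have h3 := mink hκ (fun a g => Y a g ^ 2)
      (fun a => C ^ B.card * (Wp B (p.filter (fun x => x i = a)) : ℝ))
      (Fintype.card (Fin k → α → Fin m) : ℝ) (fun a g => sq_nonneg _)
      (fun a => by positivity) (by positivity) (fun a => by
        have := ih (p.filter (fun x => x i = a))
        simp_rw [← pow_mul]
        exact this)
    refine (mul_le_mul_of_nonneg_left h3 (by positivity)).trans (le_of_eq ?_)
    rw [← mul_sum]
    have h4 : ∑ a : α, (Wp B (p.filter (fun x => x i = a)) : ℝ) = (Wp (insert i B) p : ℝ) := by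
      rw [← Wp_insert]
      push_cast
      rfl
    rw [h4, card_insert_of_notMem hi, pow_succ]
    rw [show C ^ B.card * C * (Wp (insert i B) p : ℝ) = C * (C ^ B.card * (Wp (insert i B) p : ℝ))
      by ring, mul_pow C]
    ring

end Pool.Agent.KCM
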