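import Pool.Agent.Lib.KCM.K1

/-!
# Bounded memory, row K2: good tables for all sets of a family
-/

set_option autoImplicit false

namespace Pool.Agent.KCM

open Finset Pool.Agent.SL

theorem Wp_pos {k : ℕ} {α : Type} [DecidableEq α] (B : Finset (Fin k)) {p : Finset (Fin k → α)}
    (hp : p.Nonempty) : 0 < Wp B p := by
  obtain ⟨x, hx⟩ := hp
  exact card_pos.2 ⟨(x, x), by simp [hx]⟩

/-- K2 -/
theorem k2 {k m κ : ℕ} {α : Type} [Fintype α] [DecidableEq α] (hm : 1 ≤ m) (hκ : 1 ≤ κ)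
    (Fam : Finset (Finset (Fin k → α))) (hcard : Fam.card * 2 ^ k * m ^ k < 4 ^ κ) :
    ∃ g : Fin k → α → Fin m, ∀ p ∈ Fam, ∀ (B : Finset (Fin k)) (η : Fin k → Fin m),
      (∑ x ∈ p, Qf g η B x) ^ 2 ≤ 4 * ((24 * (κ : ℝ) * (m : ℝ) ^ 2) ^ B.card * (Wp B p : ℝ)) := by
  classical
  by_contra hno
  push Not at hno
  set D : Finset (Fin k) → Finset (Fin k → α) → ℝ := fun B p =>
    (24 * (κ : ℝ) * (m : ℝ) ^ 2) ^ B.card * (Wp B p : ℝ) with hD
  let bad : Finset (Fin k → α) × (Finset (Fin k) × (Fin k → Fin m)) →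
      Finset (Fin k → α → Fin m) := fun z =>
    univ.filter (fun g : Fin k → α → Fin m =>
        4 * D z.2.1 z.1 < (∑ x ∈ z.1, Qf g z.2.2 z.2.1 x) ^ 2)
  have h1 : (univ : Finset (Fin k → α → Fin m)) ⊆ (Fam ×ˢ univ).biUnion bad := by
    intro g _
    obtain ⟨p, hp, B, η, hg⟩ := hno g
    rw [mem_biUnion]
    refine ⟨(p, (B, η)), by simp [hp], ?_⟩
    simp only [bad, mem_filter, mem_univ, true_and]
    exact hg
  have h3 := (card_le_card h1).trans card_biUnion_le
  have h4 : ∀ z ∈ Fam ×ˢ (univ : Finset (Finset (Fin k) × (Fin k → Fin m))),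
      ((bad z).card : ℝ) ≤ (Fintype.card (Fin k → α → Fin m) : ℝ) / 4 ^ κ := by
    intro z _
    rcases z.1.eq_empty_or_nonempty with hp | hp
    · have : bad z = ∅ := by
        rw [filter_eq_empty_iff]
        intro g _
        rw [hp, sum_empty, not_lt, zero_pow two_ne_zero]
        have : 0 ≤ D z.2.1 ∅ := by
          rw [hD]
          positivity
        linarith
      rw [this, card_empty, Nat.cast_zero]
      positivity
    · rw [le_div_iff₀ (by positivity)]
      have hW : (0 : ℝ) < Wp z.2.1 z.1 := by exact_mod_cast Wp_pos z.2.1 hp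
      have hm0 : (0 : ℝ) < m := by exact_mod_cast hm
      have hκ0 : (0 : ℝ) < κ := by exact_mod_cast hκ
      have hDp : 0 < D z.2.1 z.1 := by
        rw [hD]
        positivity
      have h5 := k1 hm hκ z.2.2 z.2.1 z.1
      have h6 : ((bad z).card : ℝ) * (4 * D z.2.1 z.1) ^ κ ≤
          ∑ g : Fin k → α → Fin m, (∑ x ∈ z.1, Qf g z.2.2 z.2.1 x) ^ (2 * κ) := by
        rw [← nsmul_eq_mul, ← sum_const]
        refine (sum_le_sum fun g hg => ?_).trans
          (sum_le_sum_of_subset_of_nonneg (filter_subset _ _)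
            fun g _ _ => (even_two_mul κ).pow_nonneg _)
        simp only [bad, mem_filter] at hg
        rw [pow_mul]
        exact pow_le_pow_left₀ (by positivity) hg.2.le _
      have h7 := h6.trans h5
      rw [mul_pow] at h7
      have hc : 0 < D z.2.1 z.1 ^ κ := by positivity
      refine le_of_mul_le_mul_right ?_ hc
      calc ((bad z).card : ℝ) * 4 ^ κ * D z.2.1 z.1 ^ κ
          = ((bad z).card : ℝ) * (4 ^ κ * D z.2.1 z.1 ^ κ) := by ring
        _ ≤ _ := h7
  have : Nonempty (Fin m) := ⟨⟨0, hm⟩⟩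
  have hG : (0 : ℝ) < (Fintype.card (Fin k → α → Fin m) : ℝ) := by
    exact_mod_cast Fintype.card_pos
  have h5 : (Fintype.card (Fin k → α → Fin m) : ℝ) ≤
      ((Fam.card * (2 ^ k * m ^ k) : ℕ) : ℝ) *
        ((Fintype.card (Fin k → α → Fin m) : ℝ) / 4 ^ κ) := by
    calc (Fintype.card (Fin k → α → Fin m) : ℝ)
        ≤ ((∑ z ∈ Fam ×ˢ (univ : Finset (Finset (Fin k) × (Fin k → Fin m))), (bad z).card : ℕ) :
            ℝ) := by
          rw [← card_univ]
          exact_mod_cast h3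
      _ ≤ ∑ z ∈ Fam ×ˢ (univ : Finset (Finset (Fin k) × (Fin k → Fin m))),
            ((Fintype.card (Fin k → α → Fin m) : ℝ) / 4 ^ κ) := by
          push_cast
          exact sum_le_sum h4
      _ = _ := by
          rw [sum_const, card_product, nsmul_eq_mul]
          congr 2
          simp [Fintype.card_prod]
  have h6 : ((Fam.card * (2 ^ k * m ^ k) : ℕ) : ℝ) < 4 ^ κ := by
    have : Fam.card * (2 ^ k * m ^ k) < 4 ^ κ := by rw [← mul_assoc]; exact hcard
    exact_mod_cast this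
  have h7 : ((Fam.card * (2 ^ k * m ^ k) : ℕ) : ℝ) *
        ((Fintype.card (Fin k → α → Fin m) : ℝ) / 4 ^ κ) <
      4 ^ κ * ((Fintype.card (Fin k → α → Fin m) : ℝ) / 4 ^ κ) :=
    mul_lt_mul_of_pos_right h6 (by positivity)
  have h8 : (4 : ℝ) ^ κ * ((Fintype.card (Fin k → α → Fin m) : ℝ) / 4 ^ κ) =
      (Fintype.card (Fin k → α → Fin m) : ℝ) := by field_simp
  linarith

end Pool.Agent.KCM
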