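import Pool.Agent.Lib.SL.R1

/-!
# Bounded memory, row K3: partition into spread pieces, with the telescoping sum of square roots
-/

set_option autoImplicit false

namespace Pool.Agent.KCM

open Finset Pool.Agent.SL

namespace K3x

variable {k : ℕ} {α : Type} [Fintype α] [DecidableEq α]

/-- The greedy choice. -/
lemma greedy {r t : ℕ} (hr : 1 ≤ r) (hq : r ≤ Fintype.card α) {T₀ : Finset (Fin k)}
    {a₀ : Fin k → α} {U : Finset (Fin k → α)} (hU₀ : U ⊆ Fib T₀ a₀)
    (hU : Fintype.card (Fin k → α) * r ^ (t + 1) <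
      U.card * Fintype.card α ^ (t + 1) * r ^ T₀.card) :
    ∃ (T : Finset (Fin k)) (a : Fin k → α), (U ∩ Fib T a).Nonempty ∧
      Spread r T (U ∩ Fib T a) ∧ (T₀ ⊆ T ∧ T.card ≤ t) ∧
      U.card * r ^ T₀.card ≤ (U ∩ Fib T a).card * r ^ T.card := by
  classical
  have hr0 : 0 < r ^ T₀.card := Nat.pow_pos hr
  have hU0 : 0 < U.card := by
    rcases Nat.eq_zero_or_pos U.card with h | h
    · rw [h, zero_mul, zero_mul] at hU; exact absurd hU (Nat.not_lt_zero _)
    · exact h
  set Cand : Finset (Finset (Fin k) × (Fin k → α)) := univ.filter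
    (fun c => T₀ ⊆ c.1 ∧ U.card * r ^ T₀.card ≤ (U ∩ Fib c.1 c.2).card * r ^ c.1.card) with hCand
  have hne : Cand.Nonempty := by
    refine ⟨(T₀, a₀), ?_⟩
    rw [hCand, mem_filter]
    refine ⟨mem_univ _, Subset.refl _, ?_⟩
    dsimp only
    rw [inter_eq_left.2 hU₀]
  obtain ⟨⟨T, a⟩, hc, hmax⟩ := exists_max_image Cand (fun c => c.1.card) hne
  rw [hCand, mem_filter] at hc
  have hc0 : T₀ ⊆ T := hc.2.1
  have hc1 : U.card * r ^ T₀.card ≤ (U ∩ Fib T a).card * r ^ T.card := hc.2.2
  have hrT : 0 < r ^ T.card := Nat.pow_pos hr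
  refine ⟨T, a, ?_, ?_, ⟨hc0, ?_⟩, hc1⟩
  · rw [← card_pos]
    rcases Nat.eq_zero_or_pos (U ∩ Fib T a).card with h | h
    · rw [h, zero_mul] at hc1
      have := Nat.mul_pos hU0 hr0
      omega
    · exact h
  · intro B hB b
    rcases B.eq_empty_or_nonempty with hB0 | hB0
    · subst hB0
      simp
    · set c : Fin k → α := fun i => if i ∈ T then a i else b i with hcd
      have hset : (U ∩ Fib T a).filter (fun x => ∀ i ∈ B, x i = b i) = U ∩ Fib (T ∪ B) c := by
        ext x
        rw [mem_filter, mem_inter, mem_inter, R1x.mem_Fib, R1x.mem_Fib]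
        constructor
        · rintro ⟨⟨h1, h2⟩, h3⟩
          refine ⟨h1, fun i hi => ?_⟩
          by_cases hiT : i ∈ T
          · rw [h2 i hiT, hcd]; simp [hiT]
          · have hiB : i ∈ B := by
              rcases mem_union.1 hi with h | h
              · exact absurd h hiT
              · exact h
            rw [h3 i hiB, hcd]; simp [hiT]
        · rintro ⟨h1, h2⟩
          refine ⟨⟨h1, fun i hi => ?_⟩, fun i hi => ?_⟩
          · rw [h2 i (mem_union_left _ hi), hcd]; simp [hi]
          · have hiT : i ∉ T := fun h => (disjoint_left.1 hB) hi h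
            rw [h2 i (mem_union_right _ hi), hcd]; simp [hiT]
      rw [hset]
      have hcard : (T ∪ B).card = T.card + B.card := card_union_of_disjoint hB.symm
      have hBpos : 0 < B.card := card_pos.2 hB0
      have hnot : (T ∪ B, c) ∉ Cand := by
        intro h
        have := hmax _ h
        simp only at this
        omega
      rw [hCand, mem_filter] at hnot
      have hlt : (U ∩ Fib (T ∪ B) c).card * r ^ (T ∪ B).card < U.card * r ^ T₀.card := by
        by_contra hcon
        exact hnot ⟨mem_univ _, hc0.trans subset_union_left, not_lt.1 hcon⟩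
      rw [hcard] at hlt
      have h5 : ((U ∩ Fib (T ∪ B) c).card * r ^ B.card) * r ^ T.card ≤
          (U ∩ Fib T a).card * r ^ T.card := by
        calc ((U ∩ Fib (T ∪ B) c).card * r ^ B.card) * r ^ T.card
            = (U ∩ Fib (T ∪ B) c).card * r ^ (T.card + B.card) := by rw [pow_add]; ring
          _ ≤ U.card * r ^ T₀.card := hlt.le
          _ ≤ _ := hc1
      exact Nat.le_of_mul_le_mul_right h5 hrT
  · by_contra hcon
    push Not at hcon
    have h6 : (U ∩ Fib T a).card ≤ (Fib T a).card := card_le_card inter_subset_right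
    have h7 : (Fib T a).card * (Fintype.card α) ^ T.card = Fintype.card (Fin k → α) :=
      R1x.card_Fib T a
    have h8 : U.card * r ^ T₀.card * Fintype.card α ^ T.card ≤
        Fintype.card (Fin k → α) * r ^ T.card := by
      calc U.card * r ^ T₀.card * Fintype.card α ^ T.card
          ≤ ((U ∩ Fib T a).card * r ^ T.card) * Fintype.card α ^ T.card :=
            Nat.mul_le_mul_right _ hc1
        _ ≤ ((Fib T a).card * r ^ T.card) * Fintype.card α ^ T.card :=
            Nat.mul_le_mul_right _ (Nat.mul_le_mul_right _ h6)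
        _ = (Fib T a).card * Fintype.card α ^ T.card * r ^ T.card := by ring
        _ = _ := by rw [h7]
    obtain ⟨d, hd⟩ : ∃ d, T.card = (t + 1) + d := ⟨T.card - (t + 1), by omega⟩
    have hqd : r ^ d ≤ Fintype.card α ^ d := Nat.pow_le_pow_left hq d
    have hqp : 0 < Fintype.card α ^ d := Nat.pow_pos (by omega)
    rw [hd, pow_add _ (t + 1) d, pow_add _ (t + 1) d] at h8
    have h9 : Fintype.card (Fin k → α) * r ^ (t + 1) * Fintype.card α ^ d <
        U.card * Fintype.card α ^ (t + 1) * r ^ T₀.card * Fintype.card α ^ d :=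
      Nat.mul_lt_mul_of_pos_right hU hqp
    have h10 : Fintype.card (Fin k → α) * r ^ (t + 1) * r ^ d ≤
        Fintype.card (Fin k → α) * r ^ (t + 1) * Fintype.card α ^ d :=
      Nat.mul_le_mul_left _ hqd
    have e1 : U.card * r ^ T₀.card * (Fintype.card α ^ (t + 1) * Fintype.card α ^ d) =
        U.card * Fintype.card α ^ (t + 1) * r ^ T₀.card * Fintype.card α ^ d := by ring
    have e2 : Fintype.card (Fin k → α) * (r ^ (t + 1) * r ^ d) =
        Fintype.card (Fin k → α) * r ^ (t + 1) * r ^ d := by ring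
    rw [e1, e2] at h8
    omega

end K3x

open K3x in
/-- K3 -/
theorem k3 {k t r : ℕ} {α : Type} [Fintype α] [DecidableEq α] (hr : 1 ≤ r)
    (hq : r ≤ Fintype.card α) (T₀ : Finset (Fin k)) (a₀ : Fin k → α)
    (U : Finset (Fin k → α)) (hU₀ : U ⊆ Fib T₀ a₀) :
    ∃ (P : Finset (Fin k) → (Fin k → α) → Finset (Fin k → α)) (L : Finset (Fin k → α)),
      (∀ T a, P T a ⊆ U ∩ Fib T a) ∧ L ⊆ U ∧
      (∀ f : (Fin k → α) → ℝ,
        ∑ x ∈ U, f x = (∑ T : Finset (Fin k), ∑ a : Fin k → α, ∑ x ∈ P T a, f x)
          + ∑ x ∈ L, f x) ∧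
      (∀ T a, Spread r T (P T a)) ∧
      (∀ T a, (P T a).Nonempty → T₀ ⊆ T ∧ T.card ≤ t) ∧
      L.card * Fintype.card α ^ (t + 1) * r ^ T₀.card ≤
        Fintype.card (Fin k → α) * r ^ (t + 1) ∧
      ∑ T : Finset (Fin k), ∑ a : Fin k → α,
        Real.sqrt ((P T a).card : ℝ) / Real.sqrt (r : ℝ) ^ T.card ≤
          2 * Real.sqrt (U.card : ℝ) / Real.sqrt (r : ℝ) ^ T₀.card := by
  classical
  induction hN : U.card using Nat.strong_induction_on generalizing U with
  | _ N ih =>
  by_cases hU : U.card * Fintype.card α ^ (t + 1) * r ^ T₀.card ≤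
      Fintype.card (Fin k → α) * r ^ (t + 1)
  · refine ⟨fun _ _ => ∅, U, fun _ _ => empty_subset _, Subset.refl _, fun f => by simp,
      fun T a => R1x.spread_empty r T, fun T a h => absurd h (by simp), hU, ?_⟩
    simp only [card_empty, Nat.cast_zero, Real.sqrt_zero, zero_div, sum_const_zero]
    positivity
  · push Not at hU
    obtain ⟨T, a, hne, hsp, hT, hbig⟩ := greedy hr hq hU₀ hU
    set p := U ∩ Fib T a with hp
    have hpU : p ⊆ U := inter_subset_left
    have hlt : (U \ p).card < N := by
      rw [← hN]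
      exact card_lt_card (sdiff_ssubset hpU hne)
    obtain ⟨P', L', h1, h2, h3, h4, h5, h6, h7⟩ := ih _ hlt (U \ p)
      (sdiff_subset.trans hU₀) rfl
    have hdis : Disjoint (P' T a) p := by
      refine disjoint_left.2 fun x hx hxp => ?_
      have := h1 T a hx
      rw [mem_inter, mem_sdiff] at this
      exact this.1.2 hxp
    refine ⟨fun T' a' => if T' = T ∧ a' = a then P' T a ∪ p else P' T' a', L', ?_, ?_, ?_, ?_, ?_,
      h6, ?_⟩
    · intro T' a'
      beta_reduce
      by_cases h : T' = T ∧ a' = a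
      · rw [if_pos h, h.1, h.2]
        refine union_subset ?_ (Subset.refl _)
        exact (h1 T a).trans (inter_subset_inter_right sdiff_subset)
      · rw [if_neg h]
        exact (h1 T' a').trans (inter_subset_inter_right sdiff_subset)
    · exact h2.trans sdiff_subset
    · intro f
      have e1 : ∑ x ∈ U, f x = ∑ x ∈ U \ p, f x + ∑ x ∈ p, f x :=
        (sum_sdiff hpU).symm
      rw [e1, h3 f]
      have e2 : ∀ T' : Finset (Fin k), ∀ a' : Fin k → α,
          ∑ x ∈ (if T' = T ∧ a' = a then P' T a ∪ p else P' T' a'), f x =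
            ∑ x ∈ P' T' a', f x + if T' = T ∧ a' = a then ∑ x ∈ p, f x else 0 := by
        intro T' a'
        by_cases h : T' = T ∧ a' = a
        · rw [if_pos h, if_pos h, h.1, h.2, sum_union hdis]
        · rw [if_neg h, if_neg h, add_zero]
      simp_rw [e2, sum_add_distrib]
      have e3 : (∑ T' : Finset (Fin k), ∑ a' : Fin k → α,
          if T' = T ∧ a' = a then ∑ x ∈ p, f x else 0) = ∑ x ∈ p, f x := by
        rw [sum_eq_single T, sum_eq_single a]
        · simp
        · intro b _ hb; simp [hb]
        · intro h; exact absurd (mem_univ _) h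
        · intro b _ hb; simp [hb]
        · intro h; exact absurd (mem_univ _) h
      rw [e3]
      ring
    · intro T' a'
      beta_reduce
      by_cases h : T' = T ∧ a' = a
      · rw [if_pos h, h.1]
        exact R1x.spread_union (h4 T a) hsp hdis
      · rw [if_neg h]
        exact h4 T' a'
    · intro T' a' hne'
      beta_reduce at hne'
      by_cases h : T' = T ∧ a' = a
      · rw [h.1]; exact hT
      · rw [if_neg h] at hne'
        exact h5 T' a' hne'
    · have hr0 : (0 : ℝ) < r := by exact_mod_cast hr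
      have hsr : 0 < Real.sqrt (r : ℝ) := Real.sqrt_pos.2 hr0
      have e2 : ∀ T' : Finset (Fin k), ∀ a' : Fin k → α,
          Real.sqrt ((if T' = T ∧ a' = a then P' T a ∪ p else P' T' a').card : ℝ) /
              Real.sqrt (r : ℝ) ^ T'.card ≤
            Real.sqrt ((P' T' a').card : ℝ) / Real.sqrt (r : ℝ) ^ T'.card +
              if T' = T ∧ a' = a then Real.sqrt (p.card : ℝ) / Real.sqrt (r : ℝ) ^ T.card
                else 0 := by
        intro T' a'
        by_cases h : T' = T ∧ a' = a
        · rw [if_pos h, if_pos h, h.1, h.2, card_union_of_disjoint hdis, ← add_div]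
          push_cast
          refine div_le_div_of_nonneg_right ?_ (by positivity)
          refine Real.sqrt_le_iff.2 ⟨by positivity, ?_⟩
          have s1 := Real.sq_sqrt (Nat.cast_nonneg (α := ℝ) (P' T a).card)
          have s2 := Real.sq_sqrt (Nat.cast_nonneg (α := ℝ) p.card)
          have s3 := mul_nonneg (Real.sqrt_nonneg ((P' T a).card : ℝ))
            (Real.sqrt_nonneg (p.card : ℝ))
          nlinarith
        · rw [if_neg h, if_neg h, add_zero]
      have e3 : (∑ T' : Finset (Fin k), ∑ a' : Fin k → α,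
          if T' = T ∧ a' = a then Real.sqrt (p.card : ℝ) / Real.sqrt (r : ℝ) ^ T.card
            else 0) = Real.sqrt (p.card : ℝ) / Real.sqrt (r : ℝ) ^ T.card := by
        rw [sum_eq_single T, sum_eq_single a]
        · simp
        · intro b _ hb; simp [hb]
        · intro h; exact absurd (mem_univ _) h
        · intro b _ hb; simp [hb]
        · intro h; exact absurd (mem_univ _) h
      have e4 : ∑ T' : Finset (Fin k), ∑ a' : Fin k → α,
          Real.sqrt ((if T' = T ∧ a' = a then P' T a ∪ p else P' T' a').card : ℝ) /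
              Real.sqrt (r : ℝ) ^ T'.card ≤
            2 * Real.sqrt ((U \ p).card : ℝ) / Real.sqrt (r : ℝ) ^ T₀.card +
              Real.sqrt (p.card : ℝ) / Real.sqrt (r : ℝ) ^ T.card := by
        refine (sum_le_sum fun T' _ => sum_le_sum fun a' _ => e2 T' a').trans ?_
        simp_rw [sum_add_distrib]
        rw [e3]
        linarith
      refine e4.trans ?_
      rw [← hN]
      -- `√p / √r^τ ≤ 2 (√U - √(U \ p))`
      have hcard : ((U \ p).card : ℝ) + p.card = U.card := by
        have := card_sdiff_add_card_eq_card hpU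
        exact_mod_cast this
      set A : ℝ := Real.sqrt (U.card : ℝ) with hA
      set B : ℝ := Real.sqrt ((U \ p).card : ℝ) with hB
      set c : ℝ := Real.sqrt (p.card : ℝ) with hc
      have hA0 : 0 ≤ A := Real.sqrt_nonneg _
      have hB0 : 0 ≤ B := Real.sqrt_nonneg _
      have hpp : (0 : ℝ) < p.card := by exact_mod_cast card_pos.2 hne
      have hc0 : 0 < c := Real.sqrt_pos.2 hpp
      have hA2 : A ^ 2 = U.card := Real.sq_sqrt (Nat.cast_nonneg _)
      have hB2 : B ^ 2 = (U \ p).card := Real.sq_sqrt (Nat.cast_nonneg _)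
      have hc2 : c ^ 2 = p.card := Real.sq_sqrt (Nat.cast_nonneg _)
      have hsum : B ^ 2 + c ^ 2 = A ^ 2 := by rw [hA2, hB2, hc2]; exact hcard
      set ρ : ℝ := Real.sqrt (r : ℝ) ^ T.card with hρ
      have hρ0 : 0 < ρ := by positivity
      set σ : ℝ := Real.sqrt (r : ℝ) ^ T₀.card with hσ
      have hσ0 : 0 < σ := by positivity
      have hAle : A * σ ≤ c * ρ := by
        have h8 : (U.card : ℝ) * (r : ℝ) ^ T₀.card ≤ p.card * (r : ℝ) ^ T.card := by
          exact_mod_cast hbig
        have h9 : (r : ℝ) ^ T.card = ρ ^ 2 := by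
          rw [hρ, ← pow_mul, mul_comm, pow_mul, Real.sq_sqrt hr0.le]
        have h9' : (r : ℝ) ^ T₀.card = σ ^ 2 := by
          rw [hσ, ← pow_mul, mul_comm, pow_mul, Real.sq_sqrt hr0.le]
        rw [h9, h9', ← hA2, ← hc2, ← mul_pow, ← mul_pow] at h8
        exact (sq_le_sq₀ (by positivity) (by positivity)).1 h8
      have hAB : B ≤ A := by
        refine (sq_le_sq₀ hB0 hA0).1 ?_
        nlinarith
      have hApos : 0 < A := by
        rcases hA0.eq_or_lt with h | h
        · exfalso
          rw [← h] at hsum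
          nlinarith [sq_nonneg B, pow_pos hc0 2]
        · exact h
      -- c² = (A-B)(A+B) ≤ 2 A (A - B)
      have h10 : c ^ 2 * σ ≤ 2 * (c * ρ) * (A - B) := by
        have h11 : c ^ 2 = (A - B) * (A + B) := by linarith
        rw [h11]
        have h12 : (A - B) * (A + B) ≤ (A - B) * (2 * A) :=
          mul_le_mul_of_nonneg_left (by linarith) (by linarith)
        have h13 : (A - B) * (2 * (A * σ)) ≤ (A - B) * (2 * (c * ρ)) :=
          mul_le_mul_of_nonneg_left (by linarith) (by linarith)
        have h16 := mul_le_mul_of_nonneg_right h12 hσ0.le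
        nlinarith
      have h14 : c / ρ ≤ 2 * (A - B) / σ := by
        rw [div_le_div_iff₀ hρ0 hσ0]
        have h15 : c * (c * σ) ≤ c * (2 * (A - B) * ρ) := by nlinarith
        exact le_of_mul_le_mul_left h15 hc0
      have h17 : 2 * B / σ + 2 * (A - B) / σ = 2 * A / σ := by
        rw [← add_div]
        congr 1
        ring
      linarith

end Pool.Agent.KCM
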