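import Pool.Agent.Lib.SL.R5
import Pool.Agent.Lib.SL.R4
import Pool.Agent.Lib.SL.R1
import Pool.Agent.Lib.KCM.K1

/-!
# Bounded memory, row K4: value of the pseudo-measure on a good spread piece
-/

set_option autoImplicit false

namespace Pool.Agent.KCM

open Finset Pool.Agent.SL

namespace K4x

/-- sets with many elements -/
lemma tail_sum {k : ℕ} (hk : 1 ≤ k) {w : ℝ} (hw0 : 0 ≤ w) (hw1 : w ≤ 1) (j : ℕ)
    (F : Finset (Finset (Fin k))) (hF : ∀ B ∈ F, j ≤ B.card) :
    ∑ B ∈ F, ((w / k) ^ B.card) ≤ 3 * w ^ j := by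
  have hk' : (1 : ℝ) ≤ k := by exact_mod_cast hk
  have hk0 : (0 : ℝ) < k := by linarith
  have h1 : ∀ B ∈ F, (w / k) ^ B.card ≤ (1 / (k : ℝ)) ^ B.card * w ^ j := by
    intro B hB
    rw [div_eq_mul_one_div, mul_pow, mul_comm]
    exact mul_le_mul_of_nonneg_left (pow_le_pow_of_le_one hw0 hw1 (hF B hB)) (by positivity)
  refine (sum_le_sum h1).trans ?_
  rw [← sum_mul]
  refine mul_le_mul_of_nonneg_right ?_ (by positivity)
  have h2 : ∑ B ∈ F, (1 / (k : ℝ)) ^ B.card ≤
      ∑ B ∈ (univ : Finset (Fin k)).powerset, (1 / (k : ℝ)) ^ B.card :=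
    sum_le_sum_of_subset_of_nonneg (fun B _ => mem_powerset.2 (subset_univ B))
      fun _ _ _ => by positivity
  refine h2.trans ?_
  have h3 := sum_pow_mul_eq_add_pow (1 / (k : ℝ)) 1 (univ : Finset (Fin k))
  simp only [one_pow, mul_one, card_univ, Fintype.card_fin] at h3
  rw [h3]
  have h4 : 1 / (k : ℝ) + 1 ≤ Real.exp (1 / k) := Real.add_one_le_exp _
  have h5 : (1 / (k : ℝ) + 1) ^ k ≤ Real.exp (1 / k) ^ k :=
    pow_le_pow_left₀ (by positivity) h4 k
  rw [← Real.exp_nat_mul, mul_one_div, div_self hk0.ne'] at h5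
  have h6 : Real.exp 1 < 2.7182818286 := Real.exp_one_lt_d9
  linarith

variable {k : ℕ} {α : Type} [Fintype α] [DecidableEq α]

lemma Wp_eq (B : Finset (Fin k)) (p : Finset (Fin k → α)) :
    Wp B p = ∑ x ∈ p, (p.filter (fun y => ∀ i ∈ B, y i = x i)).card := by
  unfold Wp
  rw [card_filter, sum_product]
  refine sum_congr rfl fun x _ => ?_
  rw [card_filter]
  refine sum_congr rfl fun y _ => ?_
  have : (∀ i ∈ B, x i = y i) ↔ (∀ i ∈ B, y i = x i) :=
    ⟨fun h i hi => (h i hi).symm, fun h i hi => (h i hi).symm⟩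
  dsimp only
  rw [if_congr this rfl rfl]

lemma Wp_spread {r : ℕ} {T : Finset (Fin k)} {p : Finset (Fin k → α)} (hsp : Spread r T p)
    {B : Finset (Fin k)} (hB : Disjoint B T) :
    Wp B p * r ^ B.card ≤ p.card * p.card := by
  rw [Wp_eq, sum_mul]
  refine (sum_le_sum fun x _ => hsp B hB x).trans ?_
  rw [sum_const, smul_eq_mul]

lemma Wp_cube {T : Finset (Fin k)} {a : Fin k → α} {p : Finset (Fin k → α)} (hp : p ⊆ Fib T a)
    {B : Finset (Fin k)} (hB : Disjoint B T) :
    Wp B p * Fintype.card α ^ (B.card + T.card) ≤ p.card * Fintype.card (Fin k → α) := by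
  classical
  rw [Wp_eq, sum_mul]
  have h : ∀ x ∈ p, (p.filter (fun y => ∀ i ∈ B, y i = x i)).card *
      Fintype.card α ^ (B.card + T.card) ≤ Fintype.card (Fin k → α) := by
    intro x hx
    have hc : B.card + T.card = (B ∪ T).card := (card_union_of_disjoint hB).symm
    rw [hc, ← R1x.card_Fib (B ∪ T) x]
    refine Nat.mul_le_mul_right _ (card_le_card fun y hy => ?_)
    rw [mem_filter] at hy
    rw [R1x.mem_Fib]
    intro i hi
    rcases mem_union.1 hi with h | h
    · exact hy.2 i h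
    · rw [R1x.mem_Fib.1 (hp hy.1) i h, R1x.mem_Fib.1 (hp hx) i h]
  refine (sum_le_sum h).trans ?_
  rw [sum_const, smul_eq_mul]

end K4x

open K4x R5x in
/-- K4 -/
theorem k4 {k m r : ℕ} {α : Type} [Fintype α] [DecidableEq α] [Nonempty α] (hm : 1 ≤ m)
    (hmk : m < k) {y : ℝ} (hy : 0 < y) (hr : Real.sqrt (r : ℝ) = 16 * k * y)
    (hq : (k : ℝ) * (y / Real.sqrt (Fintype.card α : ℝ)) ≤ 1)
    (g : Fin k → α → Fin m) (T : Finset (Fin k)) (a : Fin k → α) (p : Finset (Fin k → α))
    (hT : T.card ≤ m) (hp : p ⊆ Fib T a) (hsp : Spread r T p)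
    (hG : ∀ (B : Finset (Fin k)) (η : Fin k → Fin m),
      (∑ x ∈ p, Qf g η B x) ^ 2 ≤ 4 * ((y ^ 2) ^ B.card * (Wp B p : ℝ))) :
    |(∑ x ∈ p, Ker m g x) - p.card * zval g T a| ≤
      p.card * (zval g T a / 2) +
        6 * (16 * (m + 1) * (k * (y / Real.sqrt (Fintype.card α : ℝ)))) ^ (m + 1) *
          (Real.sqrt (p.card : ℝ) / Real.sqrt (r : ℝ) ^ T.card) *
            Real.sqrt (Fintype.card (Fin k → α) : ℝ) := by
  classical
  have h4 : R4 := r4
  have hk1 : 1 ≤ k := by omega
  have hk' : (1 : ℝ) ≤ k := by exact_mod_cast hk1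
  have hk0 : (0 : ℝ) < k := by linarith
  have hm' : (1 : ℝ) ≤ m := by exact_mod_cast hm
  set sq : ℝ := Real.sqrt (Fintype.card α : ℝ) with hsq
  have hqp : (0 : ℝ) < (Fintype.card α : ℝ) := by exact_mod_cast Fintype.card_pos
  have hsq0 : 0 < sq := Real.sqrt_pos.2 hqp
  have hsq2 : sq ^ 2 = Fintype.card α := Real.sq_sqrt hqp.le
  set sr : ℝ := Real.sqrt (r : ℝ) with hsr
  have hsr0 : 0 < sr := by rw [hr]; positivity
  have hsr2 : sr ^ 2 = r := Real.sq_sqrt (Nat.cast_nonneg _)
  set sp : ℝ := Real.sqrt (p.card : ℝ) with hspd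
  have hsp0 : 0 ≤ sp := Real.sqrt_nonneg _
  have hsp2 : sp ^ 2 = p.card := Real.sq_sqrt (Nat.cast_nonneg _)
  set sO : ℝ := Real.sqrt (Fintype.card (Fin k → α) : ℝ) with hsO
  have hsO0 : 0 ≤ sO := Real.sqrt_nonneg _
  have hsO2 : sO ^ 2 = Fintype.card (Fin k → α) := Real.sq_sqrt (Nat.cast_nonneg _)
  set ψ : ℝ := y / sq with hψ
  have hψ0 : 0 < ψ := by positivity
  set z := zval g T a with hz
  have hz0 : 0 ≤ z := zval_nonneg g T a
  set c : ℝ := (p.card : ℝ) with hc
  have hc0 : 0 ≤ c := Nat.cast_nonneg _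
  set X : Finset (Fin k) → (Fin k → Fin m) → ℝ := fun B η => ∑ x ∈ p, Qf g η B x with hX
  -- the two bounds for `X`
  have hX0 : ∀ B η, |X B η| ≤ 2 * y ^ B.card * Real.sqrt (Wp B p : ℝ) := by
    intro B η
    refine abs_le_of_sq_le_sq ?_ (by positivity)
    refine (hG B η).trans (le_of_eq ?_)
    rw [mul_pow, mul_pow, Real.sq_sqrt (Nat.cast_nonneg _), ← pow_mul, ← pow_mul, mul_comm 2]
    ring
  have hXb : ∀ B, Disjoint B T → ∀ η, |X B η| ≤ 2 * (c * (1 / (16 * k)) ^ B.card) := by
    intro B hB η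
    refine (hX0 B η).trans ?_
    have h1 : (Wp B p : ℝ) * (r : ℝ) ^ B.card ≤ c * c := by
      rw [hc]
      exact_mod_cast Wp_spread hsp hB
    have h2 : Real.sqrt (Wp B p : ℝ) * sr ^ B.card ≤ c := by
      refine (sq_le_sq₀ (by positivity) hc0).1 ?_
      rw [mul_pow, Real.sq_sqrt (Nat.cast_nonneg _), ← pow_mul, mul_comm B.card 2, pow_mul, hsr2]
      linarith
    have h3 : y ^ B.card = (1 / (16 * k)) ^ B.card * sr ^ B.card := by
      rw [← mul_pow]
      congr 1
      rw [hr]
      field_simp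
    calc 2 * y ^ B.card * Real.sqrt (Wp B p : ℝ)
        = 2 * ((1 / (16 * k)) ^ B.card * (Real.sqrt (Wp B p : ℝ) * sr ^ B.card)) := by
          rw [h3]; ring
      _ ≤ 2 * ((1 / (16 * k)) ^ B.card * c) := by gcongr
      _ = _ := by ring
  have hXc : ∀ B, Disjoint B T → ∀ η, |X B η| ≤ 2 * (sp * sO / sq ^ T.card * ψ ^ B.card) := by
    intro B hB η
    refine (hX0 B η).trans ?_
    have h1 : (Wp B p : ℝ) * (Fintype.card α : ℝ) ^ (B.card + T.card) ≤
        c * Fintype.card (Fin k → α) := by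
      rw [hc]
      exact_mod_cast Wp_cube hp hB
    have h2 : Real.sqrt (Wp B p : ℝ) * sq ^ (B.card + T.card) ≤ sp * sO := by
      refine (sq_le_sq₀ (by positivity) (by positivity)).1 ?_
      rw [mul_pow, Real.sq_sqrt (Nat.cast_nonneg _), ← pow_mul, mul_comm (B.card + T.card) 2,
        pow_mul, hsq2, mul_pow, hsp2, hsO2]
      exact h1
    have h3 : Real.sqrt (Wp B p : ℝ) ≤ sp * sO / sq ^ (B.card + T.card) := by
      rw [le_div_iff₀ (by positivity)]
      exact h2
    calc 2 * y ^ B.card * Real.sqrt (Wp B p : ℝ)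
        ≤ 2 * y ^ B.card * (sp * sO / sq ^ (B.card + T.card)) := by gcongr
      _ = _ := by
          rw [hψ, div_pow, pow_add]
          field_simp
  set G : Finset (Fin k) → Finset (Fin k) → ℝ := fun A B =>
    avgJ (A ∪ B) (fun η => Qf g η A a * X B η) with hGd
  set S : Finset (Fin k) → ℝ := fun B =>
    ∑ A ∈ T.powerset, if A.card + B.card ≤ m then G A B else 0 with hS
  have hfib : ∀ x ∈ p, ∀ i ∈ T, x i = a i := by
    intro x hx
    exact R1x.mem_Fib.1 (hp hx)
  -- the decomposition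
  have hdec : ∑ x ∈ p, Ker m g x = ∑ B ∈ (Tᶜ).powerset, S B := by
    unfold Ker
    rw [sum_comm]
    have e1 : ∀ A : Finset (Fin k), ∑ x ∈ p, avgJ A (fun η => Qf g η A x) =
        G (A ∩ T) (A \ T) := by
      intro A
      rw [hGd]
      dsimp only
      have hA : A ∩ T ∪ A \ T = A := by rw [union_comm]; exact sdiff_union_inter A T
      rw [hA, ← avgJ_sum]
      congr 1
      funext η
      rw [hX]
      dsimp only
      rw [mul_sum]
      refine sum_congr rfl fun x hx => ?_
      have hd : Disjoint (A ∩ T) (A \ T) := by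
        rw [disjoint_left]
        intro i hi hi2
        exact (mem_sdiff.1 hi2).2 (mem_inter.1 hi).2
      have := Qf_union g hd (x := x) (a := a) (fun i hi => hfib x hx i (mem_inter.1 hi).2) η
      rw [hA] at this
      exact this
    rw [sum_congr rfl fun A _ => e1 A]
    rw [hS]
    dsimp only
    rw [← sum_product', ← sum_filter]
    refine sum_nbij' (fun A => (A \ T, A ∩ T)) (fun x => x.2 ∪ x.1) ?_ ?_ ?_ ?_ ?_
    · intro A hA
      simp only [mem_filter, mem_univ, true_and] at hA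
      simp only [mem_filter, mem_product, mem_powerset]
      refine ⟨⟨fun i hi => ?_, inter_subset_right⟩, ?_⟩
      · rw [mem_compl]; exact (mem_sdiff.1 hi).2
      · have := card_inter_add_card_sdiff A T
        omega
    · rintro ⟨B, A⟩ hx
      simp only [mem_filter, mem_product, mem_powerset] at hx
      simp only [mem_filter, mem_univ, true_and]
      exact (card_union_le _ _).trans hx.2
    · intro A _
      dsimp only
      rw [union_comm]
      exact sdiff_union_inter A T
    · rintro ⟨B, A⟩ hx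
      simp only [mem_filter, mem_product, mem_powerset] at hx
      obtain ⟨⟨hB, hA⟩, -⟩ := hx
      have hBT : ∀ i ∈ B, i ∉ T := fun i hi => mem_compl.1 (hB hi)
      refine Prod.ext ?_ ?_
      · ext i
        simp only [mem_sdiff, mem_union]
        constructor
        · rintro ⟨h | h, h'⟩
          · exact absurd (hA h) h'
          · exact h
        · exact fun h => ⟨Or.inr h, hBT i h⟩
      · ext i
        simp only [mem_inter, mem_union]
        constructor
        · rintro ⟨h | h, h'⟩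
          · exact h
          · exact absurd h' (hBT i h)
        · exact fun h => ⟨Or.inl h, hA h⟩
    · intro A _
      rfl
  -- the terms with few elements
  have hsmall : ∀ B, Disjoint B T → T.card + B.card ≤ m →
      S B = avgJ (T ∪ B) (fun η => Pr g T a η * X B η) := by
    intro B hB hcard
    have hTB : (T ∪ B).card ≤ m := by
      have := card_union_le T B
      omega
    rw [hS]
    dsimp only
    have e1 : ∀ A ∈ T.powerset, (if A.card + B.card ≤ m then G A B else 0) =
        avgJ (T ∪ B) (fun η => Qf g η A a * X B η) := by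
      intro A hA
      rw [mem_powerset] at hA
      have h1 := card_le_card hA
      rw [if_pos (by omega)]
      refine ((h4 k m (A ∪ B) (T ∪ B) (union_subset_union_left hA) hTB hm).2 _ ?_).symm
      intro η η' hη
      congr 1
      · unfold Qf
        refine prod_congr rfl fun i hi => ?_
        rw [hη i (mem_union_left B hi)]
      · rw [hX]
        dsimp only
        unfold Qf
        refine sum_congr rfl fun x _ => prod_congr rfl fun i hi => ?_
        rw [hη i (mem_union_right A hi)]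
    rw [sum_congr rfl e1, ← avgJ_sum]
    congr 1
    funext η
    rw [← sum_mul, sum_Qf]
  have hPrT : ∀ B, Disjoint B T → T.card + B.card ≤ m →
      avgJ (T ∪ B) (fun η => Pr g T a η) = z := by
    intro B hB hcard
    have hTB : (T ∪ B).card ≤ m := by
      have := card_union_le T B
      omega
    refine (h4 k m T (T ∪ B) subset_union_left hTB hm).2 _ ?_
    intro η η' hη
    unfold Pr
    refine prod_congr rfl fun i hi => ?_
    rw [hη i hi]
  have hS0 : S ∅ = c * z := by
    rw [hsmall ∅ (disjoint_empty_left T) (by rw [card_empty]; omega)]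
    have e1 : ∀ η, X ∅ η = c := by
      intro η
      rw [hX]
      dsimp only
      unfold Qf
      rw [sum_congr rfl fun x _ => prod_empty, sum_const, nsmul_eq_mul, mul_one]
    have e2 : (fun η => Pr g T a η * X ∅ η) = fun η => Pr g T a η * c := by
      funext η
      rw [e1]
    rw [e2, avgJ_mul, hPrT ∅ (disjoint_empty_left T) (by rw [card_empty]; omega)]
    ring
  have hSb1 : ∀ B, Disjoint B T → T.card + B.card ≤ m →
      |S B| ≤ 2 * (c * z) * ((1 / 16) / k) ^ B.card := by
    intro B hB hcard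
    rw [hsmall B hB hcard]
    refine (avgJ_abs _ _ (fun η => Pr g T a η * (2 * (c * (1 / (16 * k)) ^ B.card)))
      fun η => ?_).trans ?_
    · rw [abs_mul, abs_of_nonneg (Pr_nonneg g T a η)]
      exact mul_le_mul_of_nonneg_left (hXb B hB η) (Pr_nonneg g T a η)
    · rw [avgJ_mul, hPrT B hB hcard, div_div]
      exact le_of_eq (by ring)
  set R : ℝ := sp * sO / sq ^ T.card with hR
  have hR0 : 0 ≤ R := by positivity
  have hSb2 : ∀ B, Disjoint B T → |S B| ≤ 2 * (((m : ℝ) + 1) ^ T.card * R) * ψ ^ B.card := by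
    intro B hB
    rw [hS]
    dsimp only
    refine (abs_sum_le_sum_abs _ _).trans ?_
    have e1 : ∀ A ∈ T.powerset, |if A.card + B.card ≤ m then G A B else 0| ≤
        (m : ℝ) ^ A.card * (2 * (R * ψ ^ B.card)) := by
      intro A _
      have h0 : 0 ≤ (m : ℝ) ^ A.card * (2 * (R * ψ ^ B.card)) := by positivity
      split_ifs
      · rw [hGd]
        dsimp only
        refine (avgJ_abs _ _ (fun _ => (m : ℝ) ^ A.card * (2 * (R * ψ ^ B.card)))
          fun η => ?_).trans (avgJ_const_le _ _ h0)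
        rw [abs_mul]
        exact mul_le_mul (abs_Qf hm g A a η) (hXc B hB η) (abs_nonneg _) (by positivity)
      · rw [abs_zero]; exact h0
    refine (sum_le_sum e1).trans ?_
    rw [← sum_mul]
    have e2 := sum_pow_mul_eq_add_pow (m : ℝ) 1 T
    simp only [one_pow, mul_one] at e2
    rw [e2]
    exact le_of_eq (by ring)
  -- the sum
  have hmem : (∅ : Finset (Fin k)) ∈ (Tᶜ).powerset := empty_mem_powerset _
  have hsplit : ∑ B ∈ (Tᶜ).powerset, S B = c * z + ∑ B ∈ (Tᶜ).powerset.erase ∅, S B := by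
    rw [← add_sum_erase _ _ hmem, hS0]
  rw [hdec, hsplit, add_sub_cancel_left]
  refine (abs_sum_le_sum_abs _ _).trans ?_
  have hψk : ∀ b : ℕ, ((k * ψ) / k) ^ b = ψ ^ b := by
    intro b
    congr 1
    field_simp
  have hb : ∀ B ∈ (Tᶜ).powerset.erase ∅, |S B| ≤ 2 * (c * z) * ((1 / 16) / k) ^ B.card +
      (if m + 1 - T.card ≤ B.card then
        2 * (((m : ℝ) + 1) ^ T.card * R) * ((k * ψ) / k) ^ B.card else 0) := by
    intro B hB
    have hBT : Disjoint B T := by
      rw [disjoint_left]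
      exact fun i hi => mem_compl.1 (mem_powerset.1 (mem_of_mem_erase hB) hi)
    rw [hψk]
    by_cases h : T.card + B.card ≤ m
    · have h1 := hSb1 B hBT h
      have h2 : 0 ≤ (if m + 1 - T.card ≤ B.card then
          2 * (((m : ℝ) + 1) ^ T.card * R) * ψ ^ B.card else 0) := by
        split_ifs
        · positivity
        · exact le_rfl
      linarith
    · rw [if_pos (by omega)]
      have h1 := hSb2 B hBT
      have h2 : 0 ≤ 2 * (c * z) * ((1 / 16) / k) ^ B.card := by positivity
      linarith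
  refine (sum_le_sum hb).trans ?_
  rw [sum_add_distrib, ← mul_sum, ← sum_filter, ← mul_sum]
  have t1 := tail_sum hk1 (w := 1 / 16) (by norm_num) (by norm_num) 1
    ((Tᶜ).powerset.erase ∅) fun B hB => by
      rw [Nat.one_le_iff_ne_zero, Ne, card_eq_zero]
      exact ne_of_mem_erase hB
  have t2 := tail_sum hk1 (w := k * ψ) (by positivity) hq (m + 1 - T.card)
    (((Tᶜ).powerset.erase ∅).filter fun B => m + 1 - T.card ≤ B.card) fun B hB =>
      (mem_filter.1 hB).2
  have b1 : 2 * (c * z) * ∑ B ∈ (Tᶜ).powerset.erase ∅, ((1 / 16) / (k : ℝ)) ^ B.card ≤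
      c * (z / 2) := by
    have hcz : 0 ≤ 2 * (c * z) := by positivity
    have := mul_le_mul_of_nonneg_left t1 hcz
    have hcz' : 0 ≤ c * z := by positivity
    rw [pow_one] at this
    nlinarith
  have hid : ((m : ℝ) + 1) ^ T.card * R * (k * ψ) ^ (m + 1 - T.card) ≤
      (16 * (m + 1) * (k * ψ)) ^ (m + 1) * (sp / sr ^ T.card) * sO := by
    have hkψ0 : 0 < (k : ℝ) * ψ := by positivity
    have e1 : (k * ψ) ^ (m + 1) = (k * ψ) ^ (m + 1 - T.card) * (k * ψ) ^ T.card := by
      rw [← pow_add]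
      congr 1
      omega
    have e2 : sr ^ T.card = (16 * (k * ψ)) ^ T.card * sq ^ T.card := by
      rw [← mul_pow]
      congr 1
      rw [hr, hψ]
      field_simp
    have e3 : ((m : ℝ) + 1) ^ T.card * R * (k * ψ) ^ (m + 1 - T.card) =
        (16 * ((m : ℝ) + 1)) ^ T.card * (k * ψ) ^ (m + 1) * (sp / sr ^ T.card) * sO := by
      rw [e1, e2, hR, mul_pow 16 ((m : ℝ) + 1), mul_pow 16 ((k : ℝ) * ψ)]
      field_simp
    rw [e3]
    have e4 : (16 * ((m : ℝ) + 1)) ^ T.card ≤ (16 * ((m : ℝ) + 1)) ^ (m + 1) :=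
      pow_le_pow_right₀ (by linarith) (by omega)
    have e5 : (16 * ((m : ℝ) + 1) * (k * ψ)) ^ (m + 1) =
        (16 * ((m : ℝ) + 1)) ^ (m + 1) * (k * ψ) ^ (m + 1) := mul_pow _ _ _
    rw [e5]
    have h0 : 0 ≤ (k * ψ) ^ (m + 1) * (sp / sr ^ T.card) * sO := by positivity
    nlinarith [mul_le_mul_of_nonneg_right e4 h0]
  have b2 : 2 * (((m : ℝ) + 1) ^ T.card * R) *
      ∑ B ∈ ((Tᶜ).powerset.erase ∅).filter (fun B => m + 1 - T.card ≤ B.card),
        ((k * ψ) / (k : ℝ)) ^ B.card ≤
      6 * (16 * (m + 1) * (k * ψ)) ^ (m + 1) * (sp / sr ^ T.card) * sO := by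
    have h0 : 0 ≤ 2 * (((m : ℝ) + 1) ^ T.card * R) := by positivity
    have := mul_le_mul_of_nonneg_left t2 h0
    nlinarith
  linarith

end Pool.Agent.KCM
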