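import Pool.Agent.Lib.KCM.K3
import Pool.Agent.Lib.KCM.K4
import Pool.Agent.Lib.SL.R5bc

/-!
# Bounded memory, row K5: the pseudo-measure of a set all of whose pieces are good
-/

set_option autoImplicit false

namespace Pool.Agent.KCM

open Finset Pool.Agent.SL

namespace K5x

variable {k m r : ℕ} {α : Type} [Fintype α] [DecidableEq α]

/-- trivial bound for the kernel -/
theorem ker_bd (hk : 2 ≤ k) (hm : 1 ≤ m) (g : Fin k → α → Fin m) (x : Fin k → α) :
    |Ker m g x| ≤ 2 * ((k : ℝ) * m) ^ m := by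
  have hm' : (1 : ℝ) ≤ m := by exact_mod_cast hm
  have hk' : (2 : ℝ) ≤ k := by exact_mod_cast hk
  unfold Ker
  refine (Finset.abs_sum_le_sum_abs _ _).trans ?_
  set F : Finset (Finset (Fin k)) := univ.filter (fun A => A.card ≤ m) with hF
  have h1 : ∑ A ∈ F, |avgJ A (fun η => Qf g η A x)| ≤ ∑ A ∈ F, (m : ℝ) ^ A.card :=
    Finset.sum_le_sum fun A _ => R5bcx.abs_avgJ_le A _ _ (by positivity)
      fun η => R5bcx.abs_Qf_le hm g η A x
  have h2 : ∑ A ∈ F, (m : ℝ) ^ A.card =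
      ∑ s ∈ range (m + 1), ∑ A ∈ F with A.card = s, (m : ℝ) ^ A.card := by
    symm
    refine Finset.sum_fiberwise_of_maps_to (fun A hA => ?_) _
    rw [hF, Finset.mem_filter] at hA
    exact Finset.mem_range.2 (by omega)
  have h3 : ∀ s ∈ range (m + 1), ∑ A ∈ F with A.card = s, (m : ℝ) ^ A.card ≤
      ((k : ℝ) * m) ^ s := by
    intro s _
    have e1 : ∑ A ∈ F with A.card = s, (m : ℝ) ^ A.card =
        ((F.filter fun A => A.card = s).card : ℝ) * (m : ℝ) ^ s := by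
      rw [← nsmul_eq_mul, ← Finset.sum_const]
      refine Finset.sum_congr rfl fun A hA => ?_
      rw [(Finset.mem_filter.1 hA).2]
    have e2 : (F.filter fun A => A.card = s).card ≤ k ^ s := by
      calc (F.filter fun A => A.card = s).card ≤ (powersetCard s (univ : Finset (Fin k))).card := by
            refine Finset.card_le_card fun A hA => ?_
            rw [Finset.mem_powersetCard]
            exact ⟨Finset.subset_univ _, (Finset.mem_filter.1 hA).2⟩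
        _ = k.choose s := by rw [Finset.card_powersetCard, Finset.card_univ, Fintype.card_fin]
        _ ≤ k ^ s := Nat.choose_le_pow k s
    rw [e1, mul_pow]
    apply mul_le_mul_of_nonneg_right _ (by positivity)
    exact_mod_cast e2
  have hy : (2 : ℝ) ≤ (k : ℝ) * m := by nlinarith
  calc _ ≤ ∑ A ∈ F, (m : ℝ) ^ A.card := h1
    _ ≤ ∑ s ∈ range (m + 1), ((k : ℝ) * m) ^ s := by
        rw [h2]
        exact Finset.sum_le_sum h3
    _ ≤ 2 * ((k : ℝ) * m) ^ m := R5bcx.geom hy m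

end K5x

/-- the error factor -/
noncomputable def Lam (k m : ℕ) (ψ : ℝ) : ℝ := 14 * (16 * (k : ℝ) ^ 3 * ψ) ^ (m + 1)

namespace K5x

/-- common part: `T₀ = ∅` gives the lower bound, `T₀ = {i, j}` the upper bound -/
theorem main {k m r : ℕ} {α : Type} [Fintype α] [DecidableEq α] [Nonempty α] (hm : 1 ≤ m)
    (hmk : m < k) (hr2 : 2 ≤ r) {y : ℝ} (hy : 0 < y) (hr : Real.sqrt (r : ℝ) = 16 * k * y)
    (hq : 16 * ((k : ℝ) * (y / Real.sqrt (Fintype.card α : ℝ))) ≤ 1)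
    (g : Fin k → α → Fin m) (T₀ : Finset (Fin k)) (U : Finset (Fin k → α))
    (P : Finset (Fin k) → (Fin k → α) → Finset (Fin k → α)) (L : Finset (Fin k → α))
    (hPU : ∀ T a, P T a ⊆ U ∩ Fib T a) (hLU : L ⊆ U)
    (hsum : ∀ f : (Fin k → α) → ℝ,
        ∑ x ∈ U, f x = (∑ T : Finset (Fin k), ∑ a : Fin k → α, ∑ x ∈ P T a, f x)
          + ∑ x ∈ L, f x)
    (hsp : ∀ T a, Spread r T (P T a)) (hT : ∀ T a, (P T a).Nonempty → T₀ ⊆ T ∧ T.card ≤ m)
    (hL : L.card * Fintype.card α ^ (m + 1) * r ^ T₀.card ≤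
      Fintype.card (Fin k → α) * r ^ (m + 1))
    (htel : ∑ T : Finset (Fin k), ∑ a : Fin k → α,
        Real.sqrt ((P T a).card : ℝ) / Real.sqrt (r : ℝ) ^ T.card ≤
          2 * Real.sqrt (U.card : ℝ) / Real.sqrt (r : ℝ) ^ T₀.card)
    (hG : ∀ (T : Finset (Fin k)) (a : Fin k → α) (B : Finset (Fin k)) (η : Fin k → Fin m),
      (∑ x ∈ P T a, Qf g η B x) ^ 2 ≤ 4 * ((y ^ 2) ^ B.card * (Wp B (P T a) : ℝ))) :
    -(Lam k m (y / Real.sqrt (Fintype.card α : ℝ)) / Real.sqrt (r : ℝ) ^ T₀.card *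
        (Real.sqrt (U.card : ℝ) * Real.sqrt (Fintype.card (Fin k → α) : ℝ))) ≤
      ∑ x ∈ U, Ker m g x ∧
    ((∀ T a, (P T a).Nonempty → zval g T a = 0) →
      ∑ x ∈ U, Ker m g x ≤
        Lam k m (y / Real.sqrt (Fintype.card α : ℝ)) / Real.sqrt (r : ℝ) ^ T₀.card *
        (Real.sqrt (U.card : ℝ) * Real.sqrt (Fintype.card (Fin k → α) : ℝ))) := by
  classical
  have hk2 : 2 ≤ k := by omega
  have hk' : (2 : ℝ) ≤ k := by exact_mod_cast hk2
  have hm' : (1 : ℝ) ≤ m := by exact_mod_cast hm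
  have hmk' : (m : ℝ) + 1 ≤ k := by exact_mod_cast hmk
  set sq : ℝ := Real.sqrt (Fintype.card α : ℝ) with hsq
  have hqp : (0 : ℝ) < (Fintype.card α : ℝ) := by exact_mod_cast Fintype.card_pos
  have hsq0 : 0 < sq := Real.sqrt_pos.2 hqp
  have hsq2 : sq ^ 2 = Fintype.card α := Real.sq_sqrt hqp.le
  set sr : ℝ := Real.sqrt (r : ℝ) with hsr
  have hsr0 : 0 < sr := by rw [hr]; positivity
  have hsr2 : sr ^ 2 = r := Real.sq_sqrt (Nat.cast_nonneg _)
  set σ : ℝ := sr ^ T₀.card with hσ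
  have hσ0 : 0 < σ := by positivity
  set ψ : ℝ := y / sq with hψ
  have hψ0 : 0 < ψ := by positivity
  have hq' : (k : ℝ) * ψ ≤ 1 := by
    have : 0 < (k : ℝ) * ψ := by positivity
    linarith
  set sO : ℝ := Real.sqrt (Fintype.card (Fin k → α) : ℝ) with hsO
  have hsO0 : 0 ≤ sO := Real.sqrt_nonneg _
  have hsO2 : sO ^ 2 = Fintype.card (Fin k → α) := Real.sq_sqrt (Nat.cast_nonneg _)
  set sU : ℝ := Real.sqrt (U.card : ℝ) with hsU
  have hsU0 : 0 ≤ sU := Real.sqrt_nonneg _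
  set E₀ : ℝ := 6 * (16 * (m + 1) * (k * ψ)) ^ (m + 1) with hE₀
  have hE₀0 : 0 ≤ E₀ := by positivity
  -- one piece
  have hpiece : ∀ T a, |(∑ x ∈ P T a, Ker m g x) - (P T a).card * zval g T a| ≤
      (P T a).card * (zval g T a / 2) +
        E₀ * (Real.sqrt ((P T a).card : ℝ) / sr ^ T.card) * sO := by
    intro T a
    rcases (P T a).eq_empty_or_nonempty with h | h
    · rw [h]
      simp
    · exact k4 hm hmk hy hr hq' g T a (P T a) (hT T a h).2
        ((hPU T a).trans inter_subset_right) (hsp T a) (hG T a)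
  have hz : ∀ T a, 0 ≤ zval g T a := fun T a => (r5c k m α hm g T a).1
  -- the tails
  have htail : ∑ T : Finset (Fin k), ∑ a : Fin k → α,
      E₀ * (Real.sqrt ((P T a).card : ℝ) / sr ^ T.card) * sO ≤ E₀ * (2 * sU / σ) * sO := by
    have e : ∑ T : Finset (Fin k), ∑ a : Fin k → α,
        E₀ * (Real.sqrt ((P T a).card : ℝ) / sr ^ T.card) * sO =
        E₀ * (∑ T : Finset (Fin k), ∑ a : Fin k → α,
          Real.sqrt ((P T a).card : ℝ) / sr ^ T.card) * sO := by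
      rw [mul_sum, sum_mul]
      refine sum_congr rfl fun T _ => ?_
      rw [mul_sum, sum_mul]
    rw [e]
    gcongr
  -- the rest
  have hrest : |∑ x ∈ L, Ker m g x| ≤
      2 * (16 * ((k : ℝ) ^ 2 * m) * ψ) ^ (m + 1) * (sU * sO) / σ := by
    have h1 : |∑ x ∈ L, Ker m g x| ≤ L.card * (2 * ((k : ℝ) * m) ^ m) := by
      refine (abs_sum_le_sum_abs _ _).trans ?_
      rw [← nsmul_eq_mul, ← sum_const]
      exact sum_le_sum fun x _ => ker_bd hk2 hm g x
    set sL : ℝ := Real.sqrt (L.card : ℝ) with hsL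
    have hsL0 : 0 ≤ sL := Real.sqrt_nonneg _
    have hsL2 : sL ^ 2 = L.card := Real.sq_sqrt (Nat.cast_nonneg _)
    have h2 : sL ≤ sU := Real.sqrt_le_sqrt (by exact_mod_cast card_le_card hLU)
    have h3 : sL * sq ^ (m + 1) * σ ≤ sO * sr ^ (m + 1) := by
      refine (sq_le_sq₀ (by positivity) (by positivity)).1 ?_
      have e1 : (sL * sq ^ (m + 1) * σ) ^ 2 =
          (L.card : ℝ) * (Fintype.card α : ℝ) ^ (m + 1) * (r : ℝ) ^ T₀.card := by
        rw [hσ, mul_pow, mul_pow, ← pow_mul, ← pow_mul, mul_comm (m + 1) 2, mul_comm T₀.card 2,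
          pow_mul, pow_mul, hsL2, hsq2, hsr2]
      have e2 : (sO * sr ^ (m + 1)) ^ 2 =
          (Fintype.card (Fin k → α) : ℝ) * (r : ℝ) ^ (m + 1) := by
        rw [mul_pow, ← pow_mul, mul_comm (m + 1) 2, pow_mul, hsO2, hsr2]
      rw [e1, e2]
      exact_mod_cast hL
    have h4 : sL ≤ sO * (16 * (k * ψ)) ^ (m + 1) / σ := by
      have e : (16 * (k * ψ)) ^ (m + 1) = sr ^ (m + 1) / sq ^ (m + 1) := by
        rw [← div_pow]
        congr 1
        rw [hr, hψ]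
        field_simp
      rw [e, ← mul_div_assoc, div_div, le_div_iff₀ (by positivity)]
      calc sL * (sq ^ (m + 1) * σ) = sL * sq ^ (m + 1) * σ := by ring
        _ ≤ _ := h3
    have h5 : (L.card : ℝ) ≤ sU * (sO * (16 * (k * ψ)) ^ (m + 1) / σ) := by
      rw [← hsL2, pow_two]
      exact mul_le_mul h2 h4 hsL0 hsU0
    have h6 : ((k : ℝ) * m) ^ m ≤ ((k : ℝ) * m) ^ (m + 1) :=
      pow_le_pow_right₀ (by nlinarith) (Nat.le_succ m)
    refine h1.trans ?_
    calc (L.card : ℝ) * (2 * ((k : ℝ) * m) ^ m)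
        ≤ (sU * (sO * (16 * (k * ψ)) ^ (m + 1) / σ)) * (2 * ((k : ℝ) * m) ^ (m + 1)) := by
          gcongr
      _ = 2 * ((16 * (k * ψ)) ^ (m + 1) * ((k : ℝ) * m) ^ (m + 1)) * (sU * sO) / σ := by ring
      _ = _ := by
          rw [← mul_pow]
          congr 4
          ring
  have htot : E₀ * (2 * sU / σ) * sO +
      2 * (16 * ((k : ℝ) ^ 2 * m) * ψ) ^ (m + 1) * (sU * sO) / σ ≤
      Lam k m ψ / σ * (sU * sO) := by
    have h1 : (16 * (m + 1) * (k * ψ)) ^ (m + 1) ≤ (16 * (k : ℝ) ^ 3 * ψ) ^ (m + 1) := by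
      refine pow_le_pow_left₀ (by positivity) ?_ _
      have : ((m : ℝ) + 1) * k ≤ (k : ℝ) ^ 3 := by
        have h : ((m : ℝ) + 1) * k ≤ k * k := by nlinarith
        nlinarith [mul_pos (lt_of_lt_of_le two_pos hk') (lt_of_lt_of_le two_pos hk')]
      nlinarith
    have h2 : (16 * ((k : ℝ) ^ 2 * m) * ψ) ^ (m + 1) ≤ (16 * (k : ℝ) ^ 3 * ψ) ^ (m + 1) := by
      refine pow_le_pow_left₀ (by positivity) ?_ _
      have : (k : ℝ) ^ 2 * m ≤ (k : ℝ) ^ 3 := by
        have : (k : ℝ) ^ 3 = (k : ℝ) ^ 2 * k := by ring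
        rw [this]
        exact mul_le_mul_of_nonneg_left (by linarith) (by positivity)
      nlinarith
    have h0 : 0 ≤ sU * sO / σ := by positivity
    have h3 := mul_le_mul_of_nonneg_right h1 h0
    have h4 := mul_le_mul_of_nonneg_right h2 h0
    unfold Lam
    rw [hE₀]
    calc 6 * (16 * (m + 1) * (k * ψ)) ^ (m + 1) * (2 * sU / σ) * sO +
          2 * (16 * ((k : ℝ) ^ 2 * m) * ψ) ^ (m + 1) * (sU * sO) / σ
        = 12 * ((16 * (m + 1) * (k * ψ)) ^ (m + 1) * (sU * sO / σ)) +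
          2 * ((16 * ((k : ℝ) ^ 2 * m) * ψ) ^ (m + 1) * (sU * sO / σ)) := by ring
      _ ≤ 12 * ((16 * (k : ℝ) ^ 3 * ψ) ^ (m + 1) * (sU * sO / σ)) +
          2 * ((16 * (k : ℝ) ^ 3 * ψ) ^ (m + 1) * (sU * sO / σ)) := by linarith
      _ = _ := by ring
  have hneg : ∀ X : ℝ, -(X / σ * (sU * sO)) = -(X / σ * (sU * sO)) := fun _ => rfl
  constructor
  · rw [hsum (Ker m g)]
    have h1 : -(∑ T : Finset (Fin k), ∑ a : Fin k → α,
        E₀ * (Real.sqrt ((P T a).card : ℝ) / sr ^ T.card) * sO) ≤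
        ∑ T : Finset (Fin k), ∑ a : Fin k → α, ∑ x ∈ P T a, Ker m g x := by
      rw [← sum_neg_distrib]
      refine sum_le_sum fun T _ => ?_
      rw [← sum_neg_distrib]
      refine sum_le_sum fun a _ => ?_
      have h2 := (abs_le.1 (hpiece T a)).1
      have h3 : 0 ≤ ((P T a).card : ℝ) * zval g T a :=
        mul_nonneg (Nat.cast_nonneg _) (hz T a)
      have h4 : ((P T a).card : ℝ) * (zval g T a / 2) = ((P T a).card : ℝ) * zval g T a / 2 := by
        ring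
      linarith
    have h5 := (abs_le.1 hrest).1
    linarith
  · intro hz0
    rw [hsum (Ker m g)]
    have h1 : ∑ T : Finset (Fin k), ∑ a : Fin k → α, ∑ x ∈ P T a, Ker m g x ≤
        ∑ T : Finset (Fin k), ∑ a : Fin k → α,
        E₀ * (Real.sqrt ((P T a).card : ℝ) / sr ^ T.card) * sO := by
      refine sum_le_sum fun T _ => sum_le_sum fun a _ => ?_
      rcases (P T a).eq_empty_or_nonempty with h | h
      · rw [h]
        simp
      · have h2 := (abs_le.1 (hpiece T a)).2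
        rw [hz0 T a h] at h2
        linarith
    have h5 := (abs_le.1 hrest).2
    linarith

end K5x

open K5x in
/-- K5, lower side -/
theorem k5 {k m r : ℕ} {α : Type} [Fintype α] [DecidableEq α] [Nonempty α] (hm : 1 ≤ m)
    (hmk : m < k) (hr2 : 2 ≤ r) {y : ℝ} (hy : 0 < y) (hr : Real.sqrt (r : ℝ) = 16 * k * y)
    (hq : 16 * ((k : ℝ) * (y / Real.sqrt (Fintype.card α : ℝ))) ≤ 1)
    (g : Fin k → α → Fin m) (U : Finset (Fin k → α))
    (P : Finset (Fin k) → (Fin k → α) → Finset (Fin k → α)) (L : Finset (Fin k → α))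
    (hPU : ∀ T a, P T a ⊆ U ∩ Fib T a) (hLU : L ⊆ U)
    (hsum : ∀ f : (Fin k → α) → ℝ,
        ∑ x ∈ U, f x = (∑ T : Finset (Fin k), ∑ a : Fin k → α, ∑ x ∈ P T a, f x)
          + ∑ x ∈ L, f x)
    (hsp : ∀ T a, Spread r T (P T a))
    (hT : ∀ T a, (P T a).Nonempty → (∅ : Finset (Fin k)) ⊆ T ∧ T.card ≤ m)
    (hL : L.card * Fintype.card α ^ (m + 1) * r ^ (∅ : Finset (Fin k)).card ≤
      Fintype.card (Fin k → α) * r ^ (m + 1))
    (htel : ∑ T : Finset (Fin k), ∑ a : Fin k → α,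
        Real.sqrt ((P T a).card : ℝ) / Real.sqrt (r : ℝ) ^ T.card ≤
          2 * Real.sqrt (U.card : ℝ) / Real.sqrt (r : ℝ) ^ (∅ : Finset (Fin k)).card)
    (hG : ∀ (T : Finset (Fin k)) (a : Fin k → α) (B : Finset (Fin k)) (η : Fin k → Fin m),
      (∑ x ∈ P T a, Qf g η B x) ^ 2 ≤ 4 * ((y ^ 2) ^ B.card * (Wp B (P T a) : ℝ))) :
    -(Lam k m (y / Real.sqrt (Fintype.card α : ℝ)) *
        (Real.sqrt (U.card : ℝ) * Real.sqrt (Fintype.card (Fin k → α) : ℝ))) ≤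
      ∑ x ∈ U, Ker m g x := by
  have := (main hm hmk hr2 hy hr hq g ∅ U P L hPU hLU hsum hsp hT hL htel hG).1
  rwa [card_empty, pow_zero, div_one] at this

open K5x in
/-- K5, upper side: a set in the clause `x i = x₀ i, x j = x₀ j` -/
theorem k5u {k m r : ℕ} {α : Type} [Fintype α] [DecidableEq α] [Nonempty α] (hm : 1 ≤ m)
    (hmk : m < k) (hr2 : 2 ≤ r) {y : ℝ} (hy : 0 < y) (hr : Real.sqrt (r : ℝ) = 16 * k * y)
    (hq : 16 * ((k : ℝ) * (y / Real.sqrt (Fintype.card α : ℝ))) ≤ 1)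
    (g : Fin k → α → Fin m) {i j : Fin k} (hij : i ≠ j) (x₀ : Fin k → α)
    (hg : g i (x₀ i) = g j (x₀ j)) (U : Finset (Fin k → α))
    (hU : U ⊆ Fib ({i, j} : Finset (Fin k)) x₀)
    (P : Finset (Fin k) → (Fin k → α) → Finset (Fin k → α)) (L : Finset (Fin k → α))
    (hPU : ∀ T a, P T a ⊆ U ∩ Fib T a) (hLU : L ⊆ U)
    (hsum : ∀ f : (Fin k → α) → ℝ,
        ∑ x ∈ U, f x = (∑ T : Finset (Fin k), ∑ a : Fin k → α, ∑ x ∈ P T a, f x)
          + ∑ x ∈ L, f x)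
    (hsp : ∀ T a, Spread r T (P T a))
    (hT : ∀ T a, (P T a).Nonempty → ({i, j} : Finset (Fin k)) ⊆ T ∧ T.card ≤ m)
    (hL : L.card * Fintype.card α ^ (m + 1) * r ^ ({i, j} : Finset (Fin k)).card ≤
      Fintype.card (Fin k → α) * r ^ (m + 1))
    (htel : ∑ T : Finset (Fin k), ∑ a : Fin k → α,
        Real.sqrt ((P T a).card : ℝ) / Real.sqrt (r : ℝ) ^ T.card ≤
          2 * Real.sqrt (U.card : ℝ) / Real.sqrt (r : ℝ) ^ ({i, j} : Finset (Fin k)).card)
    (hG : ∀ (T : Finset (Fin k)) (a : Fin k → α) (B : Finset (Fin k)) (η : Fin k → Fin m),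
      (∑ x ∈ P T a, Qf g η B x) ^ 2 ≤ 4 * ((y ^ 2) ^ B.card * (Wp B (P T a) : ℝ))) :
    ∑ x ∈ U, Ker m g x ≤
      Lam k m (y / Real.sqrt (Fintype.card α : ℝ)) / r *
        (Real.sqrt (U.card : ℝ) * Real.sqrt (Fintype.card (Fin k → α) : ℝ)) := by
  have h := (main hm hmk hr2 hy hr hq g {i, j} U P L hPU hLU hsum hsp hT hL htel hG).2 (by
    intro T a hne
    obtain ⟨x, hx⟩ := hne
    have hTT := (hT T a ⟨x, hx⟩).1
    have hxf := R1x.mem_Fib.1 (mem_inter.1 (hPU T a hx)).2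
    have hxu := R1x.mem_Fib.1 (hU (mem_inter.1 (hPU T a hx)).1)
    have hi : i ∈ T := hTT (by simp)
    have hj : j ∈ T := hTT (by simp)
    refine (r5c k m α hm g T a).2.2 i hi j hj hij ?_
    rw [← hxf i hi, ← hxf j hj, hxu i (by simp), hxu j (by simp)]
    exact hg)
  rwa [card_pair hij, Real.sq_sqrt (Nat.cast_nonneg _)] at h

end Pool.Agent.KCM
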