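import Pool.Agent.Lib.KCM.Model

/-!
# Bounded memory, row K6: accounting along a derivation
-/

set_option autoImplicit false

namespace Pool.Agent.KCM

open Finset

/-- restriction of a set of tuples along `emb` -/
def Rs {n k : ℕ} {X : Type} [Fintype X] (emb : X → (Fin k → Fin n))
    (W : Finset (Fin k → Fin n)) : Finset X :=
  univ.filter (fun x => emb x ∈ W)

namespace K6x

variable {n k : ℕ} {X : Type} [Fintype X] [DecidableEq X]

theorem mem_Rs {emb : X → (Fin k → Fin n)} {W : Finset (Fin k → Fin n)} {x : X} :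
    x ∈ Rs emb W ↔ emb x ∈ W := by
  simp [Rs]

theorem sub (κ : X → ℝ) (S S' : Finset X) :
    ∑ x ∈ S', κ x = ∑ x ∈ S, κ x - ∑ x ∈ S \ S', κ x + ∑ x ∈ S' \ S, κ x := by
  have h1 := sum_inter_add_sum_sdiff S S' κ
  have h2 := sum_inter_add_sum_sdiff S' S κ
  rw [inter_comm] at h2
  linarith

theorem join (κ : X → ℝ) (S₁ S₂ S' : Finset X) (h : S' \ S₁ ⊆ S₂) :
    ∑ x ∈ S', κ x = ∑ x ∈ S₁, κ x - ∑ x ∈ S₁ \ S', κ x + (∑ x ∈ S₂, κ x -
      ∑ x ∈ S₂ \ (S' \ S₁), κ x) := by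
  have h1 := sum_inter_add_sum_sdiff S₁ S' κ
  have h2 := sum_inter_add_sum_sdiff S' S₁ κ
  rw [inter_comm] at h2
  have h3 := sum_sdiff (f := κ) h
  linarith

end K6x

open K6x in
/-- K6 -/
theorem k6 {n k : ℕ} (G : SimpleGraph (Fin n)) (V : Finset (Finset (Fin k → Fin n)))
    {X : Type} [Fintype X] [DecidableEq X] (emb : X → (Fin k → Fin n)) (κ : X → ℝ) (A B : ℝ)
    (hA : 0 ≤ A) (hB : 0 ≤ B)
    (low : ∀ W₁ W₂ W₃, W₁ ∈ insert ∅ V → W₂ ∈ insert ∅ V → W₃ ∈ insert ∅ V →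
      -(A + B * ((Rs emb W₂ \ (Rs emb W₃ \ Rs emb W₁)).card : ℝ)) ≤
        ∑ x ∈ Rs emb W₂ \ (Rs emb W₃ \ Rs emb W₁), κ x)
    (upp : ∀ W W', W ∈ insert ∅ V → W' ∈ V → ∀ (i j : Fin k) (a b : Fin n), i ≠ j →
      ¬ G.Adj a b → (∀ x ∈ Rs emb W' \ Rs emb W, emb x i = a ∧ emb x j = b) →
      ∑ x ∈ Rs emb W' \ Rs emb W, κ x ≤ A + B * ((Rs emb W' \ Rs emb W).card : ℝ))
    {W : Finset (Fin k → Fin n)} {T : ℕ} {e : (Fin k → Fin n) → ℕ} (h : Der G V W T e) :
    ∃ W₀ ∈ insert ∅ V, W ⊆ W₀ ∧ (T = 0 → W₀ = ∅) ∧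
      (1 ≤ T → ∑ x ∈ Rs emb W₀, κ x ≤ 2 * A * (2 * T - 1) +
        B * (2 * (∑ x, (e (emb x) : ℝ)) - ((Rs emb W₀).card : ℝ))) := by
  classical
  have R0 : Rs emb (∅ : Finset (Fin k → Fin n)) = ∅ := by
    ext x
    simp [mem_Rs]
  have card1 : ∀ S S' : Finset X, ((S'.card : ℝ)) = S.card - (S \ S').card + (S' \ S).card := by
    intro S S'
    have := K6x.sub (fun _ : X => (1 : ℝ)) S S'
    simpa using this
  have low1 : ∀ W₂ W₃, W₂ ∈ insert ∅ V → W₃ ∈ insert ∅ V →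
      -(A + B * ((Rs emb W₂ \ Rs emb W₃).card : ℝ)) ≤ ∑ x ∈ Rs emb W₂ \ Rs emb W₃, κ x := by
    intro W₂ W₃ h2 h3
    have := low ∅ W₂ W₃ (mem_insert_self _ _) h2 h3
    rwa [R0, sdiff_empty] at this
  induction h with
  | start =>
    exact ⟨∅, mem_insert_self _ _, Subset.refl _, fun _ => rfl, fun h => absurd h (by norm_num)⟩
  | @look W T e W' i j a b _ hW' hij hab hs ih =>
    obtain ⟨W₀, h0, hsub, hz, hb⟩ := ih
    refine ⟨W', mem_insert_of_mem hW', Subset.refl _, fun h => absurd h (by omega), fun _ => ?_⟩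
    have hD : ∀ x ∈ Rs emb W' \ Rs emb W₀, emb x i = a ∧ emb x j = b := by
      intro x hx
      rw [mem_sdiff, mem_Rs, mem_Rs] at hx
      rcases hs _ hx.1 with h | h
      · exact absurd (hsub h) hx.2
      · exact h
    have hup := upp W₀ W' h0 hW' i j a b hij hab hD
    have hE : (∑ x, (e (emb x) : ℝ)) + ((Rs emb W' \ Rs emb W₀).card : ℝ) ≤
        ∑ x, ((e (emb x) + if emb x ∈ W' ∧ emb x ∉ W then 1 else 0 : ℕ) : ℝ) := by
      push_cast
      rw [sum_add_distrib]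
      have h1 : ((Rs emb W' \ Rs emb W₀).card : ℝ) =
          ∑ x : X, if x ∈ Rs emb W' \ Rs emb W₀ then (1 : ℝ) else 0 := by
        rw [sum_ite_mem, univ_inter]
        simp
      rw [h1]
      have h2 : ∑ x : X, (if x ∈ Rs emb W' \ Rs emb W₀ then (1 : ℝ) else 0) ≤
          ∑ x : X, (if emb x ∈ W' ∧ emb x ∉ W then (1 : ℝ) else 0) := by
        refine sum_le_sum fun x _ => ?_
        by_cases hx : x ∈ Rs emb W' \ Rs emb W₀
        · rw [if_pos hx]
          rw [mem_sdiff, mem_Rs, mem_Rs] at hx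
          rw [if_pos ⟨hx.1, fun h => hx.2 (hsub h)⟩]
        · rw [if_neg hx]
          split_ifs <;> norm_num
      linarith
    have hE0 : 0 ≤ ∑ x, (e (emb x) : ℝ) := sum_nonneg fun x _ => Nat.cast_nonneg _
    set E' : ℝ := ∑ x, ((e (emb x) + if emb x ∈ W' ∧ emb x ∉ W then 1 else 0 : ℕ) : ℝ) with hE'
    set d : ℝ := ((Rs emb W' \ Rs emb W₀).card : ℝ) with hd
    have hBE := mul_le_mul_of_nonneg_left hE hB
    push_cast
    rcases Nat.eq_zero_or_pos T with hT | hT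
    · have hW0 := hz hT
      subst hW0
      rw [R0, sdiff_empty] at hup hd
      rw [hT, ← hd]
      have : 0 ≤ B * ∑ x, (e (emb x) : ℝ) := mul_nonneg hB hE0
      simp only [Nat.cast_zero]
      nlinarith
    · have hb1 := hb hT
      have hlo := low1 W₀ W' h0 (mem_insert_of_mem hW')
      have hs1 := K6x.sub κ (Rs emb W₀) (Rs emb W')
      have hc1 := card1 (Rs emb W₀) (Rs emb W')
      rw [← hd] at hc1
      rw [hs1]
      rw [hc1]
      nlinarith
  | @join W₁ W₂ T₁ T₂ e₁ e₂ W' _ _ hW' hs ih₁ ih₂ =>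
    obtain ⟨V₁, h1, hsub1, hz1, hb1⟩ := ih₁
    obtain ⟨V₂, h2, hsub2, hz2, hb2⟩ := ih₂
    have hE1 : 0 ≤ ∑ x, (e₁ (emb x) : ℝ) := sum_nonneg fun x _ => Nat.cast_nonneg _
    have hE2 : 0 ≤ ∑ x, (e₂ (emb x) : ℝ) := sum_nonneg fun x _ => Nat.cast_nonneg _
    have hE : ∑ x, ((e₁ (emb x) + e₂ (emb x) : ℕ) : ℝ) =
        ∑ x, (e₁ (emb x) : ℝ) + ∑ x, (e₂ (emb x) : ℝ) := by
      push_cast
      rw [sum_add_distrib]
    have hBE1 := mul_nonneg hB hE1
    have hBE2 := mul_nonneg hB hE2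
    rcases Nat.eq_zero_or_pos T₁ with hT1 | hT1
    · have hV := hz1 hT1
      rw [hV, subset_empty] at hsub1
      refine ⟨V₂, h2, fun v hv => ?_, fun h => hz2 (by omega), fun h => ?_⟩
      · rcases hs v hv with h | h
        · rw [hsub1] at h
          exact absurd h (notMem_empty _)
        · exact hsub2 h
      · have := hb2 (by omega)
        rw [hE, hT1, zero_add]
        nlinarith
    · rcases Nat.eq_zero_or_pos T₂ with hT2 | hT2
      · have hV := hz2 hT2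
        rw [hV, subset_empty] at hsub2
        refine ⟨V₁, h1, fun v hv => ?_, fun h => hz1 (by omega), fun h => ?_⟩
        · rcases hs v hv with h | h
          · exact hsub1 h
          · rw [hsub2] at h
            exact absurd h (notMem_empty _)
        · have := hb1 (by omega)
          rw [hE, hT2, add_zero]
          nlinarith
      · refine ⟨W', mem_insert_of_mem hW', Subset.refl _, fun h => absurd h (by omega),
          fun _ => ?_⟩
        have hb1' := hb1 hT1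
        have hb2' := hb2 hT2
        have hss : Rs emb W' \ Rs emb V₁ ⊆ Rs emb V₂ := by
          intro x hx
          rw [mem_sdiff, mem_Rs, mem_Rs] at hx
          rw [mem_Rs]
          rcases hs _ hx.1 with h | h
          · exact absurd (hsub1 h) hx.2
          · exact hsub2 h
        have hj := K6x.join κ (Rs emb V₁) (Rs emb V₂) (Rs emb W') hss
        have hc := K6x.join (fun _ : X => (1 : ℝ)) (Rs emb V₁) (Rs emb V₂) (Rs emb W') hss
        simp only [sum_const, nsmul_eq_mul, mul_one] at hc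
        have hl1 := low1 V₁ W' h1 (mem_insert_of_mem hW')
        have hl2 := low V₁ V₂ W' h1 h2 (mem_insert_of_mem hW')
        rw [hE, hj, hc]
        push_cast
        nlinarith

open K6x in
/-- K6, version for derivations which forget little -/
theorem k6n {n k : ℕ} (G : SimpleGraph (Fin n)) (V : Finset (Finset (Fin k → Fin n)))
    {X : Type} [Fintype X] [DecidableEq X] (emb : X → (Fin k → Fin n)) (κ : X → ℝ) (A B C : ℝ)
    (hB : 0 ≤ B)
    (low : ∀ W₁ W₂ W₃, W₁ ∈ insert ∅ V → W₂ ∈ insert ∅ V → W₃ ∈ insert ∅ V →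
      -(C * ((Rs emb W₂ \ (Rs emb W₃ \ Rs emb W₁)).card : ℝ)) ≤
        ∑ x ∈ Rs emb W₂ \ (Rs emb W₃ \ Rs emb W₁), κ x)
    (upp : ∀ W W', W ∈ insert ∅ V → W' ∈ V → ∀ (i j : Fin k) (a b : Fin n), i ≠ j →
      ¬ G.Adj a b → (∀ x ∈ Rs emb W' \ Rs emb W, emb x i = a ∧ emb x j = b) →
      ∑ x ∈ Rs emb W' \ Rs emb W, κ x ≤ A + B * ((Rs emb W' \ Rs emb W).card : ℝ))
    {W : Finset (Fin k → Fin n)} {T : ℕ} {e : (Fin k → Fin n) → ℕ} (h : Der G V W T e) :
    W ∈ insert ∅ V ∧ ∑ x ∈ Rs emb W, κ x ≤ A * T + B * (∑ x, (e (emb x) : ℝ)) +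
      C * ((∑ x, (e (emb x) : ℝ)) - ((Rs emb W).card : ℝ)) := by
  classical
  have R0 : Rs emb (∅ : Finset (Fin k → Fin n)) = ∅ := by
    ext x
    simp [mem_Rs]
  have low1 : ∀ W₂ W₃, W₂ ∈ insert ∅ V → W₃ ∈ insert ∅ V →
      -(C * ((Rs emb W₂ \ Rs emb W₃).card : ℝ)) ≤ ∑ x ∈ Rs emb W₂ \ Rs emb W₃, κ x := by
    intro W₂ W₃ h2 h3
    have := low ∅ W₂ W₃ (mem_insert_self _ _) h2 h3
    rwa [R0, sdiff_empty] at this
  induction h with
  | start =>
    refine ⟨mem_insert_self _ _, ?_⟩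
    rw [R0]
    simp
  | @look W T e W' i j a b _ hW' hij hab hs ih =>
    obtain ⟨h0, hb⟩ := ih
    refine ⟨mem_insert_of_mem hW', ?_⟩
    have hD : ∀ x ∈ Rs emb W' \ Rs emb W, emb x i = a ∧ emb x j = b := by
      intro x hx
      rw [mem_sdiff, mem_Rs, mem_Rs] at hx
      rcases hs _ hx.1 with h | h
      · exact absurd h hx.2
      · exact h
    have hup := upp W W' h0 hW' i j a b hij hab hD
    have hE : ∑ x, ((e (emb x) + if emb x ∈ W' ∧ emb x ∉ W then 1 else 0 : ℕ) : ℝ) =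
        (∑ x, (e (emb x) : ℝ)) + ((Rs emb W' \ Rs emb W).card : ℝ) := by
      push_cast
      rw [sum_add_distrib]
      have h1 : ((Rs emb W' \ Rs emb W).card : ℝ) =
          ∑ x : X, if x ∈ Rs emb W' \ Rs emb W then (1 : ℝ) else 0 := by
        rw [sum_ite_mem, univ_inter]
        simp
      rw [h1]
      congr 1
      refine sum_congr rfl fun x _ => ?_
      simp only [mem_sdiff, mem_Rs]
    have hlo := low1 W W' h0 (mem_insert_of_mem hW')
    have hs1 := K6x.sub κ (Rs emb W) (Rs emb W')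
    have hc1 := K6x.sub (fun _ : X => (1 : ℝ)) (Rs emb W) (Rs emb W')
    simp only [sum_const, nsmul_eq_mul, mul_one] at hc1
    rw [hE, hs1, hc1]
    push_cast
    nlinarith
  | @join W₁ W₂ T₁ T₂ e₁ e₂ W' _ _ hW' hs ih₁ ih₂ =>
    obtain ⟨h1, hb1⟩ := ih₁
    obtain ⟨h2, hb2⟩ := ih₂
    refine ⟨mem_insert_of_mem hW', ?_⟩
    have hE : ∑ x, ((e₁ (emb x) + e₂ (emb x) : ℕ) : ℝ) =
        ∑ x, (e₁ (emb x) : ℝ) + ∑ x, (e₂ (emb x) : ℝ) := by
      push_cast
      rw [sum_add_distrib]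
    have hss : Rs emb W' \ Rs emb W₁ ⊆ Rs emb W₂ := by
      intro x hx
      rw [mem_sdiff, mem_Rs, mem_Rs] at hx
      rw [mem_Rs]
      rcases hs _ hx.1 with h | h
      · exact absurd h hx.2
      · exact h
    have hj := K6x.join κ (Rs emb W₁) (Rs emb W₂) (Rs emb W') hss
    have hc := K6x.join (fun _ : X => (1 : ℝ)) (Rs emb W₁) (Rs emb W₂) (Rs emb W') hss
    simp only [sum_const, nsmul_eq_mul, mul_one] at hc
    have hl1 := low1 W₁ W' h1 (mem_insert_of_mem hW')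
    have hl2 := low W₁ W₂ W' h1 h2 (mem_insert_of_mem hW')
    rw [hE, hj, hc]
    push_cast
    nlinarith

end Pool.Agent.KCM
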