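import Pool.Agent.Lib.KCM.K2
import Pool.Agent.Lib.KCM.K5
import Pool.Agent.Lib.KCM.K6

/-!
# Bounded memory, row K7: the lower bound in a cube of blocks
-/

set_option autoImplicit false

namespace Pool.Agent.KCM

open Finset Pool.Agent.SL

/-- the complete multipartite graph with colouring `c` -/
def mpG {n m : ℕ} (c : Fin n → Fin m) : SimpleGraph (Fin n) where
  Adj a b := c a ≠ c b
  symm := ⟨fun _ _ h => h.symm⟩
  loopless := ⟨fun _ h => h rfl⟩

namespace K7x

/-- block embedding -/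
def emb {n k q : ℕ} (h : k * q ≤ n) (x : Fin k → Fin q) (i : Fin k) : Fin n :=
  ⟨i * q + x i, by
    have h1 : (x i : ℕ) < q := (x i).2
    have h2 : (i : ℕ) + 1 ≤ k := i.2
    calc (i : ℕ) * q + x i < i * q + q := by omega
      _ = (i + 1) * q := by ring
      _ ≤ k * q := Nat.mul_le_mul_right _ h2
      _ ≤ n := h⟩

/-- colour of a vertex -/
def lab {n k q m : ℕ} (d : Fin m) (g : Fin k → Fin q → Fin m) (v : Fin n) : Fin m :=
  if h : (v : ℕ) / q < k ∧ 0 < q then g ⟨v / q, h.1⟩ ⟨v % q, Nat.mod_lt _ h.2⟩ else d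

theorem lab_emb {n k q m : ℕ} (h : k * q ≤ n) (d : Fin m) (g : Fin k → Fin q → Fin m)
    (x : Fin k → Fin q) (i : Fin k) : lab d g (emb h x i) = g i (x i) := by
  have hx : (x i : ℕ) < q := (x i).2
  have hq : 0 < q := by omega
  have h1 : ((emb h x i : Fin n) : ℕ) / q = i := by
    show ((i : ℕ) * q + x i) / q = i
    rw [mul_comm, Nat.mul_add_div hq, Nat.div_eq_of_lt hx, add_zero]
  have h2 : ((emb h x i : Fin n) : ℕ) % q = x i := by
    show ((i : ℕ) * q + x i) % q = x i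
    rw [mul_comm, Nat.mul_add_mod, Nat.mod_eq_of_lt hx]
  unfold lab
  rw [dif_pos ⟨by rw [h1]; exact i.2, hq⟩]
  exact congrArg₂ g (Fin.ext h1) (Fin.ext h2)

theorem emb_inj {n k q : ℕ} (h : k * q ≤ n) {x y : Fin k → Fin q} {i : Fin k}
    (e : emb h x i = emb h y i) : x i = y i := by
  have := congrArg Fin.val e
  have h2 : (i : ℕ) * q + x i = i * q + y i := this
  exact Fin.ext (by omega)

/-- number of points of the cube in a clause -/
theorem clause_card {n k q : ℕ} (h : k * q ≤ n) {i j : Fin k} (hij : i ≠ j) (a b : Fin n)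
    (S : Finset (Fin k → Fin q)) (hS : ∀ x ∈ S, emb h x i = a ∧ emb h x j = b) :
    S.card * q ^ 2 ≤ Fintype.card (Fin k → Fin q) := by
  classical
  rcases S.eq_empty_or_nonempty with h0 | ⟨y, hy⟩
  · rw [h0]
    simp
  · have h1 : S ⊆ Fib ({i, j} : Finset (Fin k)) y := by
      intro x hx
      rw [R1x.mem_Fib]
      intro l hl
      rcases mem_insert.1 hl with rfl | hl
      · exact emb_inj h (by rw [(hS x hx).1, (hS y hy).1])
      · rw [mem_singleton.1 hl]
        exact emb_inj h (by rw [(hS x hx).2, (hS y hy).2])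
    have h2 := R1x.card_Fib (α := Fin q) ({i, j} : Finset (Fin k)) y
    rw [card_pair hij, Fintype.card_fin] at h2
    rw [← h2]
    exact Nat.mul_le_mul_right _ (card_le_card h1)

theorem ent {n k q : ℕ} (h : k * q ≤ n) {G : SimpleGraph (Fin n)}
    {V : Finset (Finset (Fin k → Fin n))} {W : Finset (Fin k → Fin n)} {T : ℕ}
    {e : (Fin k → Fin n) → ℕ} (hd : Der G V W T e) :
    (∑ x : Fin k → Fin q, e (emb h x)) * q ^ 2 ≤ T * Fintype.card (Fin k → Fin q) := by
  classical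
  induction hd with
  | start => simp
  | @look W T e W' i j a b _ hW' hij hab hs ih =>
    rw [sum_add_distrib, add_mul, add_mul, one_mul]
    refine add_le_add ih ?_
    have h1 : ∑ x : Fin k → Fin q, (if emb h x ∈ W' ∧ emb h x ∉ W then 1 else 0) =
        (univ.filter fun x : Fin k → Fin q => emb h x ∈ W' ∧ emb h x ∉ W).card := by
      rw [card_filter]
    rw [h1]
    refine clause_card h hij a b _ fun x hx => ?_
    rw [mem_filter] at hx
    rcases hs _ hx.2.1 with h2 | h2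
    · exact absurd h2 hx.2.2
    · exact h2
  | join W' _ _ hW' hs ih₁ ih₂ =>
    rw [sum_add_distrib, add_mul, add_mul]
    exact add_le_add ih₁ ih₂

theorem der_pos {n k : ℕ} {G : SimpleGraph (Fin n)}
    {V : Finset (Finset (Fin k → Fin n))} {W : Finset (Fin k → Fin n)} {T : ℕ}
    {e : (Fin k → Fin n) → ℕ} (hd : Der G V W T e) : ∀ v ∈ W, 1 ≤ e v ∧ 1 ≤ T := by
  induction hd with
  | start => intro v hv; exact absurd hv (notMem_empty v)
  | @look W T e W' i j a b _ hW' hij hab hs ih =>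
    intro v hv
    refine ⟨?_, by omega⟩
    dsimp only
    by_cases h : v ∈ W
    · have := (ih v h).1
      omega
    · rw [if_pos ⟨hv, h⟩]
      omega
  | join W' _ _ hW' hs ih₁ ih₂ =>
    intro v hv
    dsimp only
    rcases hs v hv with h | h
    · have := ih₁ v h
      omega
    · have := ih₂ v h
      omega

end K7x

open K7x in
/-- K7: in the cube of blocks, `T E ≥ 1/(128 Λ²)` -/
theorem k7 {n k m q r κ : ℕ} (hm : 1 ≤ m) (hmk : m < k) (hq : k * q ≤ n) (hκ : 1 ≤ κ)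
    (hr : r = 6144 * κ * m ^ 2 * k ^ 2) (hrq : r ≤ q)
    (hbig : 153600 * κ * m ^ 2 * k ^ 4 ≤ q)
    (V : Finset (Finset (Fin k → Fin n)))
    (hcard : ((V.card + 1) ^ 3 * 2 ^ k * (2 ^ k * q ^ k) + 1) * 2 ^ k * m ^ k < 4 ^ κ) :
    ∃ c : Fin n → Fin m, ∀ (T : ℕ) (e : (Fin k → Fin n) → ℕ), Der (mpG c) V univ T e →
      1 ≤ 128 * Lam k m (Real.sqrt (24 * κ * m ^ 2) / Real.sqrt q) ^ 2 *
        (T * ((∑ x : Fin k → Fin q, (e (emb hq x) : ℝ)) / (q : ℝ) ^ k)) ∧
      ((∀ v, e v ≤ 1) → (r : ℝ) ^ 2 ≤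
        16 * Lam k m (Real.sqrt (24 * κ * m ^ 2) / Real.sqrt q) ^ 2 * T) := by
  classical
  have hk1 : 1 ≤ k := by omega
  have hk' : (1 : ℝ) ≤ k := by exact_mod_cast hk1
  have hm' : (1 : ℝ) ≤ m := by exact_mod_cast hm
  have hκ' : (1 : ℝ) ≤ κ := by exact_mod_cast hκ
  have hκm : 1 ≤ κ * m ^ 2 * k ^ 2 := Nat.one_le_iff_ne_zero.2 (by positivity)
  have hr2 : 2 ≤ r := by
    rw [hr]
    have : 6144 * κ * m ^ 2 * k ^ 2 = 6144 * (κ * m ^ 2 * k ^ 2) := by ring
    omega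
  have hq0 : 0 < q := by omega
  have : Nonempty (Fin q) := ⟨⟨0, hq0⟩⟩
  have : NeZero q := ⟨by omega⟩
  have hcα : Fintype.card (Fin q) = q := Fintype.card_fin q
  set y : ℝ := Real.sqrt (24 * κ * m ^ 2) with hy
  have hy0 : 0 < y := Real.sqrt_pos.2 (by positivity)
  have hy2 : y ^ 2 = 24 * (κ : ℝ) * (m : ℝ) ^ 2 := Real.sq_sqrt (by positivity)
  have hsr : Real.sqrt (r : ℝ) = 16 * k * y := by
    rw [hr]
    have e : ((6144 * κ * m ^ 2 * k ^ 2 : ℕ) : ℝ) = (16 * k * y) ^ 2 := by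
      push_cast
      rw [mul_pow, mul_pow, hy2]
      ring
    rw [e]
    exact Real.sqrt_sq (by positivity)
  set sq : ℝ := Real.sqrt (q : ℝ) with hsq
  have hqr : (0 : ℝ) < q := by exact_mod_cast hq0
  have hsq0 : 0 < sq := Real.sqrt_pos.2 hqr
  have hsq2 : sq ^ 2 = q := Real.sq_sqrt hqr.le
  set ψ : ℝ := y / sq with hψ
  have hψ0 : 0 < ψ := by positivity
  -- `80 k² ψ ≤ 1`
  have hψs : 80 * ((k : ℝ) ^ 2 * ψ) ≤ 1 := by
    have h1 : 80 * ((k : ℝ) ^ 2 * y) ≤ sq := by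
      refine (sq_le_sq₀ (by positivity) hsq0.le).1 ?_
      rw [hsq2, mul_pow, mul_pow, hy2]
      have : ((153600 * κ * m ^ 2 * k ^ 4 : ℕ) : ℝ) ≤ q := by exact_mod_cast hbig
      push_cast at this
      nlinarith
    rw [hψ, ← mul_div_assoc, ← mul_div_assoc, div_le_one hsq0]
    linarith
  have hq16 : 16 * ((k : ℝ) * ψ) ≤ 1 := by
    have : (k : ℝ) * ψ ≤ (k : ℝ) ^ 2 * ψ :=
      mul_le_mul_of_nonneg_right (by nlinarith) hψ0.le
    nlinarith
  -- the family
  set V' : Finset (Finset (Fin k → Fin n)) := insert ∅ V with hV'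
  have hV'c : V'.card ≤ V.card + 1 := card_insert_le _ _
  set F : Finset (Fin k → Fin n) × Finset (Fin k → Fin n) × Finset (Fin k → Fin n) →
    Finset (Fin k → Fin q) := fun z =>
      Rs (emb hq) z.2.1 \ (Rs (emb hq) z.2.2 \ Rs (emb hq) z.1) with hF
  have hpart : ∀ (U : Finset (Fin k → Fin q)) (T₀ : Finset (Fin k)),
      ∃ (P : Finset (Fin k) → (Fin k → Fin q) → Finset (Fin k → Fin q))
        (L : Finset (Fin k → Fin q)), (∃ a₀, U ⊆ Fib T₀ a₀) →
      (∀ T a, P T a ⊆ U ∩ Fib T a) ∧ L ⊆ U ∧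
      (∀ f : (Fin k → Fin q) → ℝ,
        ∑ x ∈ U, f x = (∑ T : Finset (Fin k), ∑ a : Fin k → Fin q, ∑ x ∈ P T a, f x)
          + ∑ x ∈ L, f x) ∧
      (∀ T a, Spread r T (P T a)) ∧
      (∀ T a, (P T a).Nonempty → T₀ ⊆ T ∧ T.card ≤ m) ∧
      L.card * Fintype.card (Fin q) ^ (m + 1) * r ^ T₀.card ≤
        Fintype.card (Fin k → Fin q) * r ^ (m + 1) ∧
      ∑ T : Finset (Fin k), ∑ a : Fin k → Fin q,
        Real.sqrt ((P T a).card : ℝ) / Real.sqrt (r : ℝ) ^ T.card ≤
          2 * Real.sqrt (U.card : ℝ) / Real.sqrt (r : ℝ) ^ T₀.card := by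
    intro U T₀
    by_cases h : ∃ a₀, U ⊆ Fib T₀ a₀
    · obtain ⟨a₀, ha₀⟩ := h
      obtain ⟨P, L, hP⟩ := k3 (t := m) (r := r) (by omega : 1 ≤ r) (by rw [hcα]; exact hrq)
        T₀ a₀ U ha₀
      exact ⟨P, L, fun _ => hP⟩
    · exact ⟨fun _ _ => ∅, ∅, fun h' => absurd h' h⟩
  choose P L hPL using hpart
  set Fam : Finset (Finset (Fin k → Fin q)) :=
    insert univ ((((V' ×ˢ V' ×ˢ V') ×ˢ (univ : Finset (Finset (Fin k)))) ×ˢ
      (univ : Finset (Finset (Fin k) × (Fin k → Fin q)))).image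
      fun z => P (F z.1.1) z.1.2 z.2.1 z.2.2) with hFam
  have hFamc : Fam.card ≤ (V.card + 1) ^ 3 * 2 ^ k * (2 ^ k * q ^ k) + 1 := by
    refine (card_insert_le _ _).trans (Nat.add_le_add_right (card_image_le.trans ?_) 1)
    rw [card_product, card_product, card_product, card_product]
    refine Nat.mul_le_mul (Nat.mul_le_mul ?_ (le_of_eq (by simp))) (le_of_eq (by simp))
    calc V'.card * (V'.card * V'.card)
        ≤ (V.card + 1) * ((V.card + 1) * (V.card + 1)) := by gcongr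
      _ = _ := by ring
  obtain ⟨g, hg⟩ := k2 (κ := κ) hm hκ Fam (lt_of_le_of_lt (by gcongr) hcard)
  refine ⟨lab ⟨0, hm⟩ g, fun T e hd => ?_⟩
  set c : Fin n → Fin m := lab ⟨0, hm⟩ g with hc
  set Λ : ℝ := Lam k m ψ with hΛ
  have hΛ0 : 0 < Λ := by
    rw [hΛ]
    unfold Lam
    positivity
  set O : ℝ := (Fintype.card (Fin k → Fin q) : ℝ) with hO
  have hOq : O = (q : ℝ) ^ k := by
    rw [hO, Fintype.card_fun, hcα, Fintype.card_fin]
    push_cast
    rfl
  have hO0 : 0 < O := by rw [hOq]; positivity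
  set sO : ℝ := Real.sqrt O with hsO
  have hsO0 : 0 ≤ sO := Real.sqrt_nonneg _
  have hsO2 : sO ^ 2 = O := Real.sq_sqrt hO0.le
  -- K5 for the sets of the family
  have good : ∀ z ∈ V' ×ˢ V' ×ˢ V', ∀ (T₀ T₁ : Finset (Fin k)) (a : Fin k → Fin q)
      (B : Finset (Fin k)) (η : Fin k → Fin m),
      (∑ x ∈ P (F z) T₀ T₁ a, Qf g η B x) ^ 2 ≤
        4 * ((y ^ 2) ^ B.card * (Wp B (P (F z) T₀ T₁ a) : ℝ)) := by
    intro z hz T₀ T₁ a B η
    rw [hy2]
    refine hg _ ?_ B η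
    rw [hFam]
    refine mem_insert_of_mem (mem_image.2 ⟨((z, T₀), (T₁, a)), ?_, rfl⟩)
    rw [mem_product, mem_product]
    exact ⟨⟨hz, mem_univ _⟩, mem_univ _⟩
  have key : ∀ z ∈ V' ×ˢ V' ×ˢ V',
      -(Λ * (Real.sqrt ((F z).card : ℝ) * sO)) ≤ ∑ x ∈ F z, Ker m g x := by
    intro z hz
    obtain ⟨h1, h2, h3, h4, h5, h6, h7⟩ := hPL (F z) ∅ ⟨fun _ => ⟨0, hq0⟩, fun x _ => by
      rw [R1x.mem_Fib]
      intro i hi
      exact absurd hi (notMem_empty i)⟩
    have := k5 (α := Fin q) hm hmk hr2 hy0 hsr (by rw [hcα]; exact hq16) g (F z)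
      (P (F z) ∅) (L (F z) ∅) h1 h2 h3 h4 h5 h6 h7 (good z hz ∅)
    rw [hcα] at this
    exact this
  have keyu : ∀ z ∈ V' ×ˢ V' ×ˢ V', ∀ (i j : Fin k) (x₀ : Fin k → Fin q), i ≠ j →
      g i (x₀ i) = g j (x₀ j) → F z ⊆ Fib ({i, j} : Finset (Fin k)) x₀ →
        ∑ x ∈ F z, Ker m g x ≤ Λ / r * (Real.sqrt ((F z).card : ℝ) * sO) := by
    intro z hz i j x₀ hij hgx hFz
    obtain ⟨h1, h2, h3, h4, h5, h6, h7⟩ := hPL (F z) {i, j} ⟨x₀, hFz⟩
    have := k5u (α := Fin q) hm hmk hr2 hy0 hsr (by rw [hcα]; exact hq16) g hij x₀ hgx (F z) hFz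
      (P (F z) {i, j}) (L (F z) {i, j}) h1 h2 h3 h4 h5 h6 h7 (good z hz {i, j})
    rw [hcα] at this
    exact this
  -- the value of the cube
  have hcube : O / 4 ≤ ∑ x : Fin k → Fin q, Ker m g x := by
    have hsp : Spread r (∅ : Finset (Fin k)) (univ : Finset (Fin k → Fin q)) := by
      intro B _ a
      have h := R1x.card_Fib (α := Fin q) B a
      rw [hcα] at h
      rw [card_univ, ← h]
      refine Nat.mul_le_mul (le_of_eq ?_) (Nat.pow_le_pow_left hrq _)
      rfl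
    have h := k4 (α := Fin q) hm hmk hy0 hsr (by rw [hcα]; nlinarith [mul_pos (lt_of_lt_of_le one_pos hk') hψ0]) g ∅
      (fun _ => ⟨0, hq0⟩) univ (by simp) (by
        intro x _
        rw [R1x.mem_Fib]
        intro i hi
        exact absurd hi (notMem_empty i)) hsp (by
        intro B η
        rw [hy2]
        exact hg _ (mem_insert_self _ _) B η)
    have hz1 := (r5c k m (Fin q) hm g ∅ (fun _ => ⟨0, hq0⟩)).2.1
    rw [hz1, card_univ, hcα, card_empty, pow_zero, div_one, mul_one] at h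
    have h8 := (abs_le.1 h).1
    have h9 : (16 * ((m : ℝ) + 1) * (k * ψ)) ^ (m + 1) ≤ 1 / 25 := by
      have h10 : 16 * ((m : ℝ) + 1) * (k * ψ) ≤ 1 / 5 := by
        have h11 : (m : ℝ) + 1 ≤ k := by exact_mod_cast hmk
        have h12 : ((m : ℝ) + 1) * (k * ψ) ≤ (k : ℝ) ^ 2 * ψ := by
          have := mul_le_mul_of_nonneg_right h11 (by positivity : 0 ≤ (k : ℝ) * ψ)
          linarith
        linarith
      calc (16 * ((m : ℝ) + 1) * (k * ψ)) ^ (m + 1) ≤ (1 / 5) ^ (m + 1) :=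
            pow_le_pow_left₀ (by positivity) h10 _
        _ ≤ (1 / 5) ^ 2 := pow_le_pow_of_le_one (by norm_num) (by norm_num) (by omega)
        _ = 1 / 25 := by norm_num
    have h13 : 6 * (16 * ((m : ℝ) + 1) * (k * (y / Real.sqrt ((q : ℕ) : ℝ)))) ^ (m + 1) *
        Real.sqrt (Fintype.card (Fin k → Fin q) : ℝ) *
          Real.sqrt (Fintype.card (Fin k → Fin q) : ℝ) ≤ O / 4 := by
      have e1 : Real.sqrt (Fintype.card (Fin k → Fin q) : ℝ) = sO := rfl
      rw [e1, mul_assoc, ← pow_two, hsO2]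
      have : 6 * (16 * ((m : ℝ) + 1) * (k * ψ)) ^ (m + 1) ≤ 1 / 4 := by linarith
      have := mul_le_mul_of_nonneg_right this hO0.le
      linarith
    have h14 : (Fintype.card (Fin k → Fin q) : ℝ) = O := rfl
    rw [h14] at h8
    rw [h14] at h13
    linarith
  -- accounting
  have hT1 : 1 ≤ T := by
    exact (der_pos hd (emb hq (fun _ => ⟨0, hq0⟩)) (mem_univ _)).2
  have hT' : (1 : ℝ) ≤ T := by exact_mod_cast hT1
  set E : ℝ := ∑ x : Fin k → Fin q, (e (emb hq x) : ℝ) with hE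
  have hE0 : 0 ≤ E := sum_nonneg fun x _ => Nat.cast_nonneg _
  have hrr : (1 : ℝ) ≤ r := by exact_mod_cast (by omega : 1 ≤ r)
  have hR0 : Rs (emb hq) (∅ : Finset (Fin k → Fin n)) = ∅ := by
    ext x
    simp [K6x.mem_Rs]
  have hlow : ∀ W₁ W₂ W₃, W₁ ∈ V' → W₂ ∈ V' → W₃ ∈ V' →
      -(Λ * (Real.sqrt ((Rs (emb hq) W₂ \ (Rs (emb hq) W₃ \ Rs (emb hq) W₁)).card : ℝ) * sO)) ≤
      ∑ x ∈ Rs (emb hq) W₂ \ (Rs (emb hq) W₃ \ Rs (emb hq) W₁), Ker m g x := by
    intro W₁ W₂ W₃ hW1 hW2 hW3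
    have h8 := key (W₁, W₂, W₃) (by simp only [mem_product]; exact ⟨hW1, hW2, hW3⟩)
    simp only [hF] at h8
    exact h8
  have hupp : ∀ W W', W ∈ V' → W' ∈ V → ∀ (i j : Fin k) (a b : Fin n), i ≠ j →
      ¬ (mpG c).Adj a b →
      (∀ x ∈ Rs (emb hq) W' \ Rs (emb hq) W, emb hq x i = a ∧ emb hq x j = b) →
      ∑ x ∈ Rs (emb hq) W' \ Rs (emb hq) W, Ker m g x ≤ Λ / r *
        (Real.sqrt ((Rs (emb hq) W' \ Rs (emb hq) W).card : ℝ) * sO) := by
    intro W W' hW hW' i j a b hij hab hx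
    have hFe : F (∅, W', W) = Rs (emb hq) W' \ Rs (emb hq) W := by
      rw [hF]
      dsimp only
      rw [hR0, sdiff_empty]
    rcases (Rs (emb hq) W' \ Rs (emb hq) W).eq_empty_or_nonempty with h0 | ⟨x₀, hx₀⟩
    · rw [h0]
      simp
    · have h8 := keyu (∅, W', W) (by
        simp only [mem_product]
        exact ⟨mem_insert_self _ _, mem_insert_of_mem hW', hW⟩) i j x₀ hij (by
          have h9 : c a = c b := by
            by_contra h
            exact hab h
          rw [← lab_emb hq ⟨0, hm⟩ g x₀ i, ← lab_emb hq ⟨0, hm⟩ g x₀ j, (hx x₀ hx₀).1,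
            (hx x₀ hx₀).2]
          exact h9) (by
          intro x hxx
          rw [hFe] at hxx
          rw [R1x.mem_Fib]
          intro l hl
          rcases mem_insert.1 hl with rfl | hl
          · exact emb_inj hq (by rw [(hx x hxx).1, (hx x₀ hx₀).1])
          · rw [mem_singleton.1 hl]
            exact emb_inj hq (by rw [(hx x hxx).2, (hx x₀ hx₀).2]))
      rw [hFe] at h8
      exact h8
  have amgm : ∀ (M l : ℝ), 0 ≤ M → 0 < l → ∀ S : Finset (Fin k → Fin q),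
      M * (Real.sqrt (S.card : ℝ) * sO) ≤ M * l * O / 2 + M / (2 * l) * (S.card : ℝ) := by
    intro M l hM hl S
    set w : ℝ := Real.sqrt (S.card : ℝ) with hw
    have hw2 : w ^ 2 = S.card := Real.sq_sqrt (Nat.cast_nonneg _)
    rw [← hw2, ← hsO2]
    have h8 : w * sO ≤ l * sO ^ 2 / 2 + w ^ 2 / (2 * l) := by
      have h9 : 0 ≤ (l * sO - w) ^ 2 / (2 * l) := by positivity
      have h10 : (l * sO - w) ^ 2 / (2 * l) = l * sO ^ 2 / 2 - w * sO + w ^ 2 / (2 * l) := by
        field_simp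
        ring
      linarith
    have h11 := mul_le_mul_of_nonneg_left h8 hM
    refine h11.trans (le_of_eq ?_)
    ring
  constructor
  · have acc : ∀ l : ℝ, 0 < l → O / 4 ≤ 2 * Λ * l * O * T + Λ * E / l := by
      intro l hl
      obtain ⟨W₀, -, hW₀, -, hfin⟩ := k6 (mpG c) V (emb hq) (Ker m g) (Λ * l * O / 2)
        (Λ / (2 * l)) (by positivity) (by positivity)
        (fun W₁ W₂ W₃ hW1 hW2 hW3 => by
          have h8 := hlow W₁ W₂ W₃ hW1 hW2 hW3
          have h9 := amgm Λ l hΛ0.le hl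
            (Rs (emb hq) W₂ \ (Rs (emb hq) W₃ \ Rs (emb hq) W₁))
          linarith)
        (fun W W' hW hW' i j a b hij hab hx => by
          have h8 := hupp W W' hW hW' i j a b hij hab hx
          have h9 := amgm Λ l hΛ0.le hl (Rs (emb hq) W' \ Rs (emb hq) W)
          have h10 : Λ / r * (Real.sqrt ((Rs (emb hq) W' \ Rs (emb hq) W).card : ℝ) * sO) ≤
              Λ * (Real.sqrt ((Rs (emb hq) W' \ Rs (emb hq) W).card : ℝ) * sO) :=
            mul_le_mul_of_nonneg_right (div_le_self hΛ0.le hrr) (by positivity)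
          linarith) hd
      have hWu : W₀ = univ := univ_subset_iff.1 hW₀
      have hRu : Rs (emb hq) W₀ = univ := by
        ext x
        simp [K6x.mem_Rs, hWu]
      have h8 := hfin hT1
      rw [hRu, card_univ] at h8
      have h9 : (Fintype.card (Fin k → Fin q) : ℝ) = O := rfl
      rw [h9, ← hE] at h8
      have h10 : 0 ≤ Λ * l * O := by positivity
      have h11 : 0 ≤ Λ / (2 * l) * O := by positivity
      have h12 : Λ / (2 * l) * (2 * E - O) = Λ * E / l - Λ / (2 * l) * O := by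
        field_simp
      have h13 : 2 * (Λ * l * O / 2) * (2 * T - 1) = 2 * Λ * l * O * T - Λ * l * O := by ring
      rw [h12, h13] at h8
      linarith
    -- choose `l = 1 / (16 Λ T)`
    have hfinal := acc (1 / (16 * Λ * T)) (by positivity)
    have e1 : 2 * Λ * (1 / (16 * Λ * T)) * O * T = O / 8 := by
      field_simp
      norm_num
    have e2 : Λ * E / (1 / (16 * Λ * T)) = 16 * Λ ^ 2 * T * E := by
      field_simp
    rw [e1, e2] at hfinal
    rw [← hOq, ← mul_div_assoc, ← mul_div_assoc, le_div_iff₀ hO0]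
    nlinarith
  · intro he1
    have hr0 : (0 : ℝ) < r := by linarith
    set l : ℝ := r / (4 * Λ * T) with hl
    have hl0 : 0 < l := by positivity
    obtain ⟨-, hfin⟩ := k6n (mpG c) V (emb hq) (Ker m g) (Λ / r * l * O / 2)
      (Λ / r / (2 * l)) (Λ * sO) (by positivity)
      (fun W₁ W₂ W₃ hW1 hW2 hW3 => by
        have h8 := hlow W₁ W₂ W₃ hW1 hW2 hW3
        set S := Rs (emb hq) W₂ \ (Rs (emb hq) W₃ \ Rs (emb hq) W₁) with hS
        have h9 : Real.sqrt (S.card : ℝ) ≤ S.card := by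
          rw [Real.sqrt_le_left (Nat.cast_nonneg _)]
          have : S.card ≤ S.card ^ 2 := Nat.le_self_pow (by norm_num) _
          exact_mod_cast this
        have h10 : Λ * (Real.sqrt (S.card : ℝ) * sO) ≤ Λ * sO * S.card := by
          have := mul_le_mul_of_nonneg_left h9 (by positivity : 0 ≤ Λ * sO)
          linarith
        linarith)
      (fun W W' hW hW' i j a b hij hab hx => by
        have h8 := hupp W W' hW hW' i j a b hij hab hx
        have h9 := amgm (Λ / r) l (by positivity) hl0 (Rs (emb hq) W' \ Rs (emb hq) W)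
        linarith) hd
    have hRu : Rs (emb hq) (univ : Finset (Fin k → Fin n)) = univ := by
      ext x
      simp [K6x.mem_Rs]
    rw [hRu, card_univ] at hfin
    have h9 : (Fintype.card (Fin k → Fin q) : ℝ) = O := rfl
    rw [h9, ← hE] at hfin
    have hEO : E ≤ O := by
      rw [hE, hO, ← card_univ, ← nsmul_one, ← sum_const]
      refine sum_le_sum fun x _ => ?_
      exact_mod_cast he1 _
    have h10 : Λ * sO * (E - O) ≤ 0 :=
      mul_nonpos_of_nonneg_of_nonpos (by positivity) (by linarith)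
    have h11 : Λ / r / (2 * l) * E ≤ Λ / r / (2 * l) * O :=
      mul_le_mul_of_nonneg_left hEO (by positivity)
    have h12 : Λ / r * l * O / 2 * T = O / 8 := by
      rw [hl]
      field_simp
      norm_num
    have h13 : Λ / r / (2 * l) * O = 2 * Λ ^ 2 * T / r ^ 2 * O := by
      rw [hl]
      field_simp
      norm_num
    rw [h12] at hfin
    rw [h13] at h11
    have h14 : O / 8 ≤ 2 * Λ ^ 2 * T / r ^ 2 * O := by linarith
    have h15 : 1 / 8 ≤ 2 * Λ ^ 2 * T / (r : ℝ) ^ 2 := by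
      refine le_of_mul_le_mul_right ?_ hO0
      linarith
    rw [le_div_iff₀ (by positivity)] at h15
    linarith

end Pool.Agent.KCM
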