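import Pool.Agent.Lib.KCM.K7

/-!
# Bounded memory, row K8: the lower bound
-/

set_option autoImplicit false

namespace Pool.Agent.KCM

open Finset Pool.Agent.SL

namespace K8x

theorem cnt {k s q m Vc : ℕ} (hk : 2 ≤ k) (hs : 1 ≤ s) (hq : q ≤ 2 ^ s) (hm : m < k)
    (hV : Vc ≤ 2 ^ s) :
    ((Vc + 1) ^ 3 * 2 ^ k * (2 ^ k * q ^ k) + 1) * 2 ^ k * m ^ k < 4 ^ (20 * k ^ 2 * s) := by
  have h1 : Vc + 1 ≤ 2 ^ (s + 1) := by
    have : 1 ≤ 2 ^ s := Nat.one_le_two_pow
    rw [pow_succ]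
    omega
  have h2 : m ≤ 2 ^ k := (hm.trans Nat.lt_two_pow_self).le
  have h3 : (Vc + 1) ^ 3 * 2 ^ k * (2 ^ k * q ^ k) + 1 ≤ 2 ^ (3 * s + 4 + 2 * k + s * k) := by
    have e1 : (Vc + 1) ^ 3 * 2 ^ k * (2 ^ k * q ^ k) ≤
        (2 ^ (s + 1)) ^ 3 * 2 ^ k * (2 ^ k * (2 ^ s) ^ k) := by
      gcongr
    have e2 : (2 ^ (s + 1)) ^ 3 * 2 ^ k * (2 ^ k * (2 ^ s) ^ k) =
        2 ^ (3 * s + 3 + 2 * k + s * k) := by
      rw [← pow_mul, ← pow_mul, ← pow_add, ← pow_add, ← pow_add]
      congr 1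
      ring
    have e3 : 2 ^ (3 * s + 4 + 2 * k + s * k) = 2 * 2 ^ (3 * s + 3 + 2 * k + s * k) := by
      rw [← pow_succ']
      congr 1
      ring
    have e4 : 1 ≤ 2 ^ (3 * s + 3 + 2 * k + s * k) := Nat.one_le_two_pow
    omega
  calc ((Vc + 1) ^ 3 * 2 ^ k * (2 ^ k * q ^ k) + 1) * 2 ^ k * m ^ k
      ≤ 2 ^ (3 * s + 4 + 2 * k + s * k) * 2 ^ k * (2 ^ k) ^ k := by gcongr
    _ = 2 ^ (3 * s + 4 + 3 * k + s * k + k * k) := by
        rw [← pow_mul, ← pow_add, ← pow_add]
        congr 1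
        ring
    _ < 2 ^ (2 * (20 * k ^ 2 * s)) := by
        refine Nat.pow_lt_pow_right (by norm_num) ?_
        have p1 : k ^ 2 * s = k * k * s := by ring
        have a0 : k ≤ k * k := Nat.le_mul_self k
        have a1 : k * k ≤ k * k * s := Nat.le_mul_of_pos_right _ hs
        have a2 : s ≤ k * k * s := Nat.le_mul_of_pos_left _ (by positivity)
        have a3 : s * k ≤ k * k * s := by
          calc s * k ≤ s * (k * k) := Nat.mul_le_mul_left _ a0
            _ = _ := by ring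
        have a4 : 2 * (20 * k ^ 2 * s) = 40 * (k * k * s) := by ring
        omega
    _ = 4 ^ (20 * k ^ 2 * s) := by
        rw [pow_mul]
        norm_num

theorem ent0 {n k : ℕ} {G : SimpleGraph (Fin n)}
    {V : Finset (Finset (Fin k → Fin n))} {W : Finset (Fin k → Fin n)} {T : ℕ}
    {e : (Fin k → Fin n) → ℕ} (hd : Der G V W T e) :
    (∑ v : Fin k → Fin n, e v) * n ^ 2 ≤ T * Fintype.card (Fin k → Fin n) := by
  classical
  induction hd with
  | start => simp
  | @look W T e W' i j a b _ hW' hij hab hs ih =>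
    rw [sum_add_distrib, add_mul, add_mul, one_mul]
    refine add_le_add ih ?_
    rw [← card_filter]
    set S : Finset (Fin k → Fin n) := univ.filter fun v => v ∈ W' ∧ v ∉ W with hS
    have hSc : ∀ x ∈ S, x i = a ∧ x j = b := by
      intro x hx
      rw [hS, mem_filter] at hx
      rcases hs _ hx.2.1 with h2 | h2
      · exact absurd h2 hx.2.2
      · exact h2
    rcases S.eq_empty_or_nonempty with h0 | ⟨y, hy⟩
    · rw [h0]
      simp
    · have h1 : S ⊆ Fib ({i, j} : Finset (Fin k)) y := by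
        intro x hx
        rw [R1x.mem_Fib]
        intro l hl
        rcases mem_insert.1 hl with rfl | hl
        · rw [(hSc x hx).1, (hSc y hy).1]
        · rw [mem_singleton.1 hl, (hSc x hx).2, (hSc y hy).2]
      have h2 := R1x.card_Fib (α := Fin n) ({i, j} : Finset (Fin k)) y
      rw [card_pair hij, Fintype.card_fin] at h2
      rw [← h2]
      exact Nat.mul_le_mul_right _ (card_le_card h1)
  | join W' _ _ hW' hs ih₁ ih₂ =>
    rw [sum_add_distrib, add_mul, add_mul]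
    exact add_le_add ih₁ ih₂

/-- trivial bound -/
theorem triv {n k : ℕ} (hn : 1 ≤ n) {G : SimpleGraph (Fin n)}
    {V : Finset (Finset (Fin k → Fin n))} {T : ℕ}
    {e : (Fin k → Fin n) → ℕ} (hd : Der G V univ T e) : n ^ 2 ≤ T := by
  have h1 := ent0 hd
  have h2 : Fintype.card (Fin k → Fin n) ≤ ∑ v : Fin k → Fin n, e v := by
    rw [← card_univ, card_eq_sum_ones]
    exact sum_le_sum fun v _ => (K7x.der_pos hd v (mem_univ v)).1
  have h3 : 0 < Fintype.card (Fin k → Fin n) := by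
    have : Nonempty (Fin k → Fin n) := ⟨fun _ => ⟨0, hn⟩⟩
    exact Fintype.card_pos
  have h4 : Fintype.card (Fin k → Fin n) * n ^ 2 ≤ Fintype.card (Fin k → Fin n) * T := by
    calc Fintype.card (Fin k → Fin n) * n ^ 2 ≤ (∑ v : Fin k → Fin n, e v) * n ^ 2 :=
          Nat.mul_le_mul_right _ h2
      _ ≤ T * Fintype.card (Fin k → Fin n) := h1
      _ = _ := mul_comm _ _
  exact Nat.le_of_mul_le_mul_left h4 h3

end K8x

open K7x K8x in
/-- the lower bound -/
theorem lower (u k n s : ℕ) (hu : 2 ≤ u) (huk : u ≤ k) (hn : n ≤ 2 ^ s)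
    (V : Finset (Finset (Fin k → Fin n))) (hV : V.card ≤ 2 ^ s) :
    ∃ c : Fin n → Fin (u - 1), ∀ (T : ℕ) (e : (Fin k → Fin n) → ℕ),
      Der (mpG c) V univ T e →
      ((∀ v, e v ≤ 1) → (s : ℝ) ^ 2 * ((n : ℝ) / ((k : ℝ) ^ 40 * s)) ^ u ≤ (T : ℝ)) ∧
      ((n : ℝ) / ((k : ℝ) ^ 40 * s)) ^ (u + 2) ≤ (T : ℝ) ^ 2 ∧
      ∀ L : ℕ, (∀ v, e v ≤ L) → ((n : ℝ) / ((k : ℝ) ^ 40 * s)) ^ u ≤ (T : ℝ) * L := by
  classical
  set N : ℝ := (n : ℝ) / ((k : ℝ) ^ 40 * s) with hN
  have hN0 : 0 ≤ N := by positivity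
  have hk2 : 2 ≤ k := hu.trans huk
  have hk' : (2 : ℝ) ≤ k := by exact_mod_cast hk2
  by_cases hN1 : N ≤ 1
  · refine ⟨fun _ => ⟨0, by omega⟩, fun T e hd => ?_⟩
    rcases Nat.eq_zero_or_pos n with h0 | h0
    · have hz : N = 0 := by rw [hN, h0]; simp
      rw [hz, zero_pow (by omega), zero_pow (by omega), mul_zero]
      exact ⟨fun _ => by positivity, by positivity, fun L _ => by positivity⟩
    · obtain ⟨h1, h2⟩ := der_pos hd (fun _ => ⟨0, h0⟩) (mem_univ _)
      have hT : (1 : ℝ) ≤ T := by exact_mod_cast h2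
      refine ⟨fun _ => ?_, (pow_le_one₀ hN0 hN1).trans (one_le_pow₀ hT), fun L hL => ?_⟩
      · have h3 : ((n : ℝ)) ^ 2 ≤ T := by exact_mod_cast triv h0 hd
        have h4 : N ^ u ≤ N ^ 2 := pow_le_pow_of_le_one hN0 hN1 hu
        have h5 : (s : ℝ) * N ≤ n := by
          rw [hN]
          rcases Nat.eq_zero_or_pos s with h6 | h6
          · rw [h6]
            simp
          · have h6' : (0 : ℝ) < s := by exact_mod_cast h6
            have h7 : (1 : ℝ) ≤ (k : ℝ) ^ 40 := one_le_pow₀ (by linarith)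
            have e : (s : ℝ) * ((n : ℝ) / ((k : ℝ) ^ 40 * s)) = n / (k : ℝ) ^ 40 := by
              field_simp
            rw [e]
            exact div_le_self (Nat.cast_nonneg _) h7
        calc (s : ℝ) ^ 2 * N ^ u ≤ (s : ℝ) ^ 2 * N ^ 2 :=
              mul_le_mul_of_nonneg_left h4 (by positivity)
          _ = ((s : ℝ) * N) ^ 2 := by ring
          _ ≤ (n : ℝ) ^ 2 := pow_le_pow_left₀ (by positivity) h5 2
          _ ≤ T := h3
      have hL' : (1 : ℝ) ≤ L := by
        have := h1.trans (hL _)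
        exact_mod_cast this
      refine (pow_le_one₀ hN0 hN1).trans ?_
      nlinarith
  · rw [not_le] at hN1
    have hs : 1 ≤ s := by
      rcases Nat.eq_zero_or_pos s with h0 | h0
      · exfalso
        rw [hN, h0] at hN1
        simp at hN1
        linarith
      · exact h0
    have hs' : (1 : ℝ) ≤ s := by exact_mod_cast hs
    have hks : 0 < (k : ℝ) ^ 40 * s := by positivity
    have hbig : k ^ 40 * s < n := by
      rw [hN, lt_div_iff₀ hks, one_mul] at hN1
      exact_mod_cast hN1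
    set m := u - 1 with hm
    have hm1 : 1 ≤ m := by omega
    have hmk : m < k := by omega
    set q := n / k with hq
    have hkq : k * q ≤ n := Nat.mul_div_le n k
    have hq39 : k ^ 39 * s ≤ q := by
      rw [hq, Nat.le_div_iff_mul_le (by omega)]
      calc k ^ 39 * s * k = k ^ 40 * s := by ring
        _ ≤ n := hbig.le
    have hmm : m ^ 2 ≤ k ^ 2 := Nat.pow_le_pow_left hmk.le 2
    have h31 : 2 ^ 31 ≤ k ^ 31 := Nat.pow_le_pow_left hk2 31
    have hb1 : 153600 * (20 * k ^ 2 * s) * m ^ 2 * k ^ 4 ≤ q := by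
      calc 153600 * (20 * k ^ 2 * s) * m ^ 2 * k ^ 4
          ≤ 153600 * (20 * k ^ 2 * s) * k ^ 2 * k ^ 4 := by gcongr
        _ = 3072000 * (k ^ 8 * s) := by ring
        _ ≤ 2 ^ 31 * (k ^ 8 * s) := Nat.mul_le_mul_right _ (by norm_num)
        _ ≤ k ^ 31 * (k ^ 8 * s) := Nat.mul_le_mul_right _ h31
        _ = k ^ 39 * s := by ring
        _ ≤ q := hq39
    have hb2 : 6144 * (20 * k ^ 2 * s) * m ^ 2 * k ^ 2 ≤ q := by
      refine le_trans ?_ hb1
      have : k ^ 2 ≤ k ^ 4 := Nat.pow_le_pow_right (by omega) (by norm_num)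
      calc 6144 * (20 * k ^ 2 * s) * m ^ 2 * k ^ 2
          ≤ 153600 * (20 * k ^ 2 * s) * m ^ 2 * k ^ 4 := by
            gcongr
            norm_num
        _ = _ := rfl
    have hqn : q ≤ 2 ^ s := (Nat.div_le_self n k).trans hn
    obtain ⟨c, hc⟩ := k7 (κ := 20 * k ^ 2 * s) (r := 6144 * (20 * k ^ 2 * s) * m ^ 2 * k ^ 2)
      hm1 hmk hkq (Nat.one_le_iff_ne_zero.2 (by positivity)) rfl hb2 hb1 V
      (cnt hk2 hs hqn hmk hV)
    refine ⟨c, fun T e hd => ?_⟩
    obtain ⟨h7, h7n⟩ := hc T e hd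
    have hq0 : 0 < q := lt_of_lt_of_le (by positivity) hq39
    have hqr : (0 : ℝ) < q := by exact_mod_cast hq0
    set E : ℝ := ∑ x : Fin k → Fin q, (e (emb hkq x) : ℝ) with hE
    have hE0 : 0 ≤ E := sum_nonneg fun x _ => Nat.cast_nonneg _
    set E' : ℝ := E / (q : ℝ) ^ k with hE'
    have hE'0 : 0 ≤ E' := by positivity
    have hT0 : (0 : ℝ) ≤ T := Nat.cast_nonneg _
    -- n ≤ 2 k q
    have hn2 : (n : ℝ) ≤ 2 * k * q := by
      have h1 : n < k * (q + 1) := by
        rw [hq]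
        exact Nat.lt_mul_div_succ n (by omega)
      have h2 : k * (q + 1) ≤ 2 * k * q := by nlinarith
      have : n ≤ 2 * k * q := h1.le.trans h2
      exact_mod_cast this
    set Q : ℝ := 160 * (256 * (k : ℝ) ^ 6 *
      (24 * ((20 * k ^ 2 * s : ℕ) : ℝ) * (m : ℝ) ^ 2 / q)) with hQ
    have hQ0 : 0 ≤ Q := by positivity
    have hLam : 128 * Lam k m (Real.sqrt (24 * ((20 * k ^ 2 * s : ℕ) : ℝ) * m ^ 2) /
        Real.sqrt q) ^ 2 ≤ Q ^ u := by
      unfold Lam
      have e1 : (16 * (k : ℝ) ^ 3 * (Real.sqrt (24 * ((20 * k ^ 2 * s : ℕ) : ℝ) * m ^ 2) /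
          Real.sqrt q)) ^ 2 = 256 * (k : ℝ) ^ 6 *
            (24 * ((20 * k ^ 2 * s : ℕ) : ℝ) * (m : ℝ) ^ 2 / q) := by
        rw [mul_pow, div_pow, Real.sq_sqrt (by positivity), Real.sq_sqrt hqr.le]
        ring
      have e2 : m + 1 = u := by omega
      rw [mul_pow, ← pow_mul, mul_comm (m + 1) 2, pow_mul, e1, e2, hQ, mul_pow 160]
      have e3 : (128 : ℝ) * 14 ^ 2 ≤ 160 ^ u := by
        calc (128 : ℝ) * 14 ^ 2 ≤ 160 ^ 2 := by norm_num
          _ ≤ 160 ^ u := pow_le_pow_right₀ (by norm_num) hu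
      rw [← mul_assoc]
      exact mul_le_mul_of_nonneg_right e3 (by positivity)
    have hNQ : N * Q ≤ 1 := by
      have hmr : (m : ℝ) ^ 2 ≤ (k : ℝ) ^ 2 := by exact_mod_cast hmm
      have h29 : (2 : ℝ) ^ 29 ≤ (k : ℝ) ^ 29 := pow_le_pow_left₀ (by norm_num) hk' 29
      have e1 : N * Q ≤ (2 * k * q) / ((k : ℝ) ^ 40 * s) * (160 * (256 * (k : ℝ) ^ 6 *
          (24 * (20 * (k : ℝ) ^ 2 * s) * (k : ℝ) ^ 2 / q))) := by
        rw [hN, hQ]
        push_cast
        gcongr
      have e2 : (2 * k * q) / ((k : ℝ) ^ 40 * s) * (160 * (256 * (k : ℝ) ^ 6 *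
          (24 * (20 * (k : ℝ) ^ 2 * s) * (k : ℝ) ^ 2 / q))) = 39321600 / (k : ℝ) ^ 29 := by
        field_simp
        ring
      rw [e2] at e1
      refine e1.trans ?_
      rw [div_le_one (by positivity)]
      refine le_trans (by norm_num) h29
    have hmain : N ^ u ≤ T * E' := by
      have h1 : 1 ≤ Q ^ u * (T * E') := by
        refine h7.trans ?_
        exact mul_le_mul_of_nonneg_right hLam (by positivity)
      calc N ^ u = N ^ u * 1 := by ring
        _ ≤ N ^ u * (Q ^ u * (T * E')) := mul_le_mul_of_nonneg_left h1 (by positivity)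
        _ = (N * Q) ^ u * (T * E') := by rw [mul_pow N Q u]; ring
        _ ≤ 1 * (T * E') := by
            refine mul_le_mul_of_nonneg_right ?_ (by positivity)
            exact pow_le_one₀ (by positivity) hNQ
        _ = T * E' := one_mul _
    have hO : (Fintype.card (Fin k → Fin q) : ℝ) = (q : ℝ) ^ k := by
      rw [Fintype.card_fun, Fintype.card_fin, Fintype.card_fin]
      push_cast
      rfl
    refine ⟨fun he1 => ?_, ?_, ?_⟩
    · have h8 := h7n he1
      set Λ2 : ℝ := Lam k m (Real.sqrt (24 * ((20 * k ^ 2 * s : ℕ) : ℝ) * m ^ 2) /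
        Real.sqrt q) ^ 2 with hΛ2
      have h9 : (s : ℝ) ≤ ((6144 * (20 * k ^ 2 * s) * m ^ 2 * k ^ 2 : ℕ) : ℝ) := by
        have : s ≤ 6144 * (20 * k ^ 2 * s) * m ^ 2 * k ^ 2 := by
          have h10 : 1 ≤ 6144 * (20 * k ^ 2) * m ^ 2 * k ^ 2 :=
            Nat.one_le_iff_ne_zero.2 (by positivity)
          calc s = 1 * s := (one_mul s).symm
            _ ≤ (6144 * (20 * k ^ 2) * m ^ 2 * k ^ 2) * s := Nat.mul_le_mul_right _ h10
            _ = _ := by ring
        exact_mod_cast this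
      have h10 : (s : ℝ) ^ 2 ≤ Q ^ u * T := by
        have h11 := pow_le_pow_left₀ (by positivity : (0 : ℝ) ≤ s) h9 2
        have h12 : 16 * Λ2 * T ≤ 128 * Λ2 * T := by
          have : 0 ≤ Λ2 * T := by positivity
          nlinarith
        have h13 := mul_le_mul_of_nonneg_right hLam hT0
        linarith
      calc (s : ℝ) ^ 2 * N ^ u ≤ (Q ^ u * T) * N ^ u :=
            mul_le_mul_of_nonneg_right h10 (by positivity)
        _ = (N * Q) ^ u * T := by rw [mul_pow N Q u]; ring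
        _ ≤ 1 * T := by
            refine mul_le_mul_of_nonneg_right ?_ hT0
            exact pow_le_one₀ (by positivity) hNQ
        _ = T := one_mul _
    · have h1 := ent hkq hd
      have h2 : E * (q : ℝ) ^ 2 ≤ T * (q : ℝ) ^ k := by
        rw [hE, ← hO]
        exact_mod_cast h1
      have h3 : E' * (q : ℝ) ^ 2 ≤ T := by
        rw [hE', div_mul_eq_mul_div, div_le_iff₀ (by positivity)]
        exact h2
      have hNq : N ≤ q := by
        rw [hN, div_le_iff₀ hks]
        have h4 : (2 : ℝ) * k ≤ (k : ℝ) ^ 40 * s := by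
          have h5 : (2 : ℝ) * k ≤ (k : ℝ) ^ 2 := by nlinarith
          have h6 : (k : ℝ) ^ 2 ≤ (k : ℝ) ^ 40 := pow_le_pow_right₀ (by linarith) (by norm_num)
          have h8 : (k : ℝ) ^ 40 ≤ (k : ℝ) ^ 40 * s := by
            have : 0 ≤ (k : ℝ) ^ 40 := by positivity
            nlinarith
          linarith
        nlinarith
      calc N ^ (u + 2) = N ^ u * N ^ 2 := pow_add _ _ _
        _ ≤ (T * E') * (q : ℝ) ^ 2 := by
            refine mul_le_mul hmain (pow_le_pow_left₀ hN0 hNq 2) (by positivity) (by positivity)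
        _ = T * (E' * (q : ℝ) ^ 2) := by ring
        _ ≤ T * T := mul_le_mul_of_nonneg_left h3 hT0
        _ = (T : ℝ) ^ 2 := by ring
    · intro L hL
      have h1 : E ≤ (q : ℝ) ^ k * L := by
        rw [hE, ← hO]
        calc ∑ x : Fin k → Fin q, (e (emb hkq x) : ℝ) ≤ ∑ x : Fin k → Fin q, (L : ℝ) :=
              sum_le_sum fun x _ => by exact_mod_cast hL _
          _ = _ := by rw [sum_const, card_univ, nsmul_eq_mul]
      have h2 : E' ≤ L := by
        rw [hE', div_le_iff₀ (by positivity)]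
        linarith
      exact hmain.trans (mul_le_mul_of_nonneg_left h2 hT0)

end Pool.Agent.KCM
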