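import Pool.Agent.Lib.KCM.Upper

/-!
# Bounded memory, row K9: the upper bound in terms of the number of bits
-/

set_option autoImplicit false

namespace Pool.Agent.KCM

open Finset

/-- the search with `s` bits of memory -/
theorem upper_s (u k n s : ℕ) (hu : 2 ≤ u) (huk : u ≤ k) (hn : (2 * n) ^ (8 * u) ≤ 2 ^ s)
    (hs : s ≤ n) :
    ∃ V : Finset (Finset (Fin k → Fin n)), V.card ≤ 2 ^ s ∧
      ∀ (c : Fin n → Fin (u - 1)) (G : SimpleGraph (Fin n)), (∀ a b, G.Adj a b ↔ c a ≠ c b) →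
        ∃ (T : ℕ) (e : (Fin k → Fin n) → ℕ), Der G V univ T e ∧ (∀ v, e v ≤ 1) ∧
          (T : ℝ) ≤ (s : ℝ) ^ 2 * ((k : ℝ) ^ 40 * n / s) ^ u := by
  classical
  have hk2 : 2 ≤ k := hu.trans huk
  rcases Nat.eq_zero_or_pos n with h0 | h0
  · subst h0
    have hE : IsEmpty (Fin k → Fin 0) := ⟨fun f => (f ⟨0, by omega⟩).elim0⟩
    refine ⟨∅, by simp, fun c G _ => ⟨0, fun _ => 0, ?_, fun v => by simp, ?_⟩⟩
    · rw [univ_eq_empty]
      exact Der.start
    · rw [Nat.cast_zero]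
      positivity
  set l : ℕ := Nat.log 2 u + 1 with hl
  have hul : u < 2 ^ l := Nat.lt_pow_succ_log_self (by norm_num) u
  have hlu : 2 ^ l ≤ 2 * u := by
    rw [hl, pow_succ, mul_comm]
    exact Nat.mul_le_mul_left 2 (Nat.pow_log_le_self 2 (by omega))
  have hl2 : 2 ≤ l := by
    have : 1 ≤ Nat.log 2 u := Nat.log_pos (by norm_num) hu
    omega
  have hll : l ≤ u := by
    have h1 : Nat.log 2 u < u := Nat.log_lt_self 2 (by omega)
    omega
  have hs8 : 8 * u ≤ s := by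
    have h1 : 2 ^ (8 * u) ≤ 2 ^ s := (Nat.pow_le_pow_left (by omega) _).trans hn
    exact (Nat.pow_le_pow_iff_right (by norm_num)).1 h1
  have hs8l : 8 * u * l ≤ s := by
    have h1 : 2 ^ (8 * u * l) ≤ 2 ^ s := by
      calc 2 ^ (8 * u * l) = (2 ^ l) ^ (8 * u) := by rw [← pow_mul]; congr 1; ring
        _ ≤ (2 * n) ^ (8 * u) := Nat.pow_le_pow_left (by omega) _
        _ ≤ 2 ^ s := hn
    exact (Nat.pow_le_pow_iff_right (by norm_num)).1 h1
  set h : ℕ := s / (4 * u * l) with hh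
  have hul0 : 0 < 4 * u * l := by positivity
  have hh1 : 1 ≤ h := by
    rw [hh, Nat.le_div_iff_mul_le hul0, one_mul]
    nlinarith
  have hhs : h * (4 * u * l) ≤ s := Nat.div_mul_le_self s _
  have hhs' : s < (h + 1) * (4 * u * l) := by
    have h1 := Nat.div_add_mod s (4 * u * l)
    have h2 := Nat.mod_lt s hul0
    rw [← hh] at h1
    calc s = 4 * u * l * h + s % (4 * u * l) := h1.symm
      _ < 4 * u * l * h + 4 * u * l := by omega
      _ = (h + 1) * (4 * u * l) := by ring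
  have huh : 8 * (u * h) ≤ s := by
    calc 8 * (u * h) = h * (4 * u * 2) := by ring
      _ ≤ h * (4 * u * l) := by gcongr
      _ ≤ s := hhs
  have hhn : h ≤ n := by
    have : h ≤ u * h := Nat.le_mul_of_pos_left _ (by omega)
    omega
  obtain ⟨V, hV, hG⟩ := upper u k n h hu huk hh1
  refine ⟨V, hV.trans ?_, fun c G hc => ?_⟩
  · -- eighth powers
    refine (Nat.pow_le_pow_iff_left (n := 8) (by norm_num)).1 ?_
    have h1 : (n / h + 1) ^ u ≤ (2 * n) ^ u := by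
      refine Nat.pow_le_pow_left ?_ u
      have := Nat.div_le_self n h
      omega
    have h2 : ((2 * n) ^ u) ^ 8 ≤ 2 ^ s := by
      rw [← pow_mul, mul_comm u 8]
      exact hn
    have h3 : (u ^ (u * h)) ^ 8 ≤ 2 ^ (2 * s) := by
      calc (u ^ (u * h)) ^ 8 ≤ ((2 ^ l) ^ (u * h)) ^ 8 := by gcongr
        _ = 2 ^ (2 * (h * (4 * u * l))) := by
            rw [← pow_mul, ← pow_mul]
            congr 1
            ring
        _ ≤ 2 ^ (2 * s) := Nat.pow_le_pow_right (by norm_num) (by omega)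
    have h4 : ((u * h) ^ 2 + 1) ^ 8 ≤ 2 ^ (2 * s + 8) := by
      have h5 : u * h < 2 ^ (u * h) := Nat.lt_two_pow_self
      have h6 : (u * h) ^ 2 + 1 ≤ 2 ^ (2 * (u * h) + 1) := by
        have h7 : (u * h) ^ 2 ≤ (2 ^ (u * h)) ^ 2 := Nat.pow_le_pow_left h5.le 2
        have h8 : 1 ≤ (2 ^ (u * h)) ^ 2 := Nat.one_le_pow _ _ (by positivity)
        have h9 : 2 ^ (2 * (u * h) + 1) = 2 * (2 ^ (u * h)) ^ 2 := by
          rw [← pow_mul, ← pow_succ']
          congr 1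
          ring
        omega
      calc ((u * h) ^ 2 + 1) ^ 8 ≤ (2 ^ (2 * (u * h) + 1)) ^ 8 := by gcongr
        _ = 2 ^ (2 * (8 * (u * h)) + 8) := by
            rw [← pow_mul]
            congr 1
            ring
        _ ≤ 2 ^ (2 * s + 8) := Nat.pow_le_pow_right (by norm_num) (by omega)
    calc ((n / h + 1) ^ u * u ^ (u * h) * ((u * h) ^ 2 + 1)) ^ 8
        ≤ ((2 * n) ^ u * u ^ (u * h) * ((u * h) ^ 2 + 1)) ^ 8 := by gcongr
      _ = ((2 * n) ^ u) ^ 8 * (u ^ (u * h)) ^ 8 * ((u * h) ^ 2 + 1) ^ 8 := by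
          rw [mul_pow, mul_pow]
      _ ≤ 2 ^ s * 2 ^ (2 * s) * 2 ^ (2 * s + 8) := by gcongr
      _ = 2 ^ (5 * s + 8) := by
          rw [← pow_add, ← pow_add]
          congr 1
          ring
      _ ≤ 2 ^ (s * 8) := Nat.pow_le_pow_right (by norm_num) (by omega)
      _ = (2 ^ s) ^ 8 := by rw [pow_mul]
  · obtain ⟨T, e, hD, he, hT⟩ := hG G c hc
    refine ⟨T, e, hD, he, ?_⟩
    have hT' : (T : ℝ) ≤ (((n / h : ℕ) : ℝ) + 1) ^ u * ((u : ℝ) * h) ^ 2 := by exact_mod_cast hT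
    have hs0 : (0 : ℝ) < s := by
      have : 0 < s := by omega
      exact_mod_cast this
    have hh0 : (0 : ℝ) < h := by exact_mod_cast hh1
    have hk' : (2 : ℝ) ≤ k := by exact_mod_cast hk2
    have h1 : ((n / h : ℕ) : ℝ) + 1 ≤ (k : ℝ) ^ 40 * n / s := by
      have h2 : ((n / h : ℕ) : ℝ) ≤ n / h := Nat.cast_div_le
      have h3 : (1 : ℝ) ≤ n / h := by
        rw [le_div_iff₀ hh0, one_mul]
        exact_mod_cast hhn
      have h4 : (n : ℝ) / h * 2 ≤ (k : ℝ) ^ 40 * n / s := by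
        rw [div_mul_eq_mul_div, div_le_div_iff₀ hh0 hs0]
        have h5 : (s : ℝ) ≤ 8 * k ^ 2 * h := by
          have h6 : s ≤ 8 * k ^ 2 * h := by
            calc s ≤ (h + 1) * (4 * u * l) := hhs'.le
              _ ≤ (2 * h) * (4 * k * k) := by
                  refine Nat.mul_le_mul (by omega) (Nat.mul_le_mul (by omega) (by omega))
              _ = 8 * k ^ 2 * h := by ring
          exact_mod_cast h6
        have h7 : 16 * (k : ℝ) ^ 2 ≤ (k : ℝ) ^ 40 := by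
          have h8 : (2 : ℝ) ^ 38 ≤ (k : ℝ) ^ 38 := pow_le_pow_left₀ (by norm_num) hk' 38
          have h9 : (k : ℝ) ^ 40 = (k : ℝ) ^ 38 * (k : ℝ) ^ 2 := by ring
          rw [h9]
          refine mul_le_mul_of_nonneg_right ?_ (by positivity)
          linarith [show (16 : ℝ) ≤ 2 ^ 38 by norm_num]
        calc (n : ℝ) * 2 * s ≤ n * 2 * (8 * k ^ 2 * h) := by gcongr
          _ = (16 * (k : ℝ) ^ 2) * n * h := by ring
          _ ≤ (k : ℝ) ^ 40 * n * h := by gcongr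
      linarith
    have h2 : ((u : ℝ) * h) ^ 2 ≤ (s : ℝ) ^ 2 := by
      refine pow_le_pow_left₀ (by positivity) ?_ 2
      have : u * h ≤ s := by omega
      exact_mod_cast this
    calc (T : ℝ) ≤ (((n / h : ℕ) : ℝ) + 1) ^ u * ((u : ℝ) * h) ^ 2 := hT'
      _ ≤ ((k : ℝ) ^ 40 * n / s) ^ u * (s : ℝ) ^ 2 := by gcongr
      _ = _ := mul_comm _ _

end Pool.Agent.KCM
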