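import Mathlib

/-!
# Search for k-cliques with bounded memory (MP_678664_lc): the model
-/

namespace Pool.Agent.KCM

/-- `Der G V W T e`: there is a tree-like derivation, with memories from `V`, that no tuple in
`W` is a clique of `G`. `T` is the number of non-edges of `G` which are read (with repetitions),
`e v` is the number of steps at which the tuple `v` becomes excluded. At the start nothing is
excluded. `look`: from the memory `W` and one pair `a, b` of non-adjacent (or equal) vertices one
passes to any memory `W'` all of whose tuples are in `W` or have `v i = a`, `v j = b`.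
`join`: from two derivations one passes to any memory contained in the union. -/
inductive Der {n k : ℕ} (G : SimpleGraph (Fin n)) (V : Finset (Finset (Fin k → Fin n))) :
    Finset (Fin k → Fin n) → ℕ → ((Fin k → Fin n) → ℕ) → Prop
  | start : Der G V ∅ 0 (fun _ => 0)
  | look {W : Finset (Fin k → Fin n)} {T : ℕ} {e : (Fin k → Fin n) → ℕ}
      (W' : Finset (Fin k → Fin n)) (i j : Fin k) (a b : Fin n) :
      Der G V W T e → W' ∈ V → i ≠ j → ¬ G.Adj a b →
      (∀ v ∈ W', v ∈ W ∨ (v i = a ∧ v j = b)) →
      Der G V W' (T + 1) (fun v => e v + if v ∈ W' ∧ v ∉ W then 1 else 0)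
  | join {W₁ W₂ : Finset (Fin k → Fin n)} {T₁ T₂ : ℕ} {e₁ e₂ : (Fin k → Fin n) → ℕ}
      (W' : Finset (Fin k → Fin n)) :
      Der G V W₁ T₁ e₁ → Der G V W₂ T₂ e₂ → W' ∈ V → (∀ v ∈ W', v ∈ W₁ ∨ v ∈ W₂) →
      Der G V W' (T₁ + T₂) (fun v => e₁ v + e₂ v)

end Pool.Agent.KCM
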