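import Pool.Agent.Lib.KCM.Model

/-!
# BoundedMemory (MP_678664_lc): the search with memory blocks (upper side)

`upper`: the vertices are cut into intervals of length `h`; the memory stores the number of the
current box (one interval for each of the first `u` positions), the labels (parts) of the `u * h`
vertices in the box and a counter.
`brute`: exhaustive search for every graph without `u`-clique.
-/

namespace Pool.Agent.KCM
namespace Up

open Finset

variable {n k : ℕ}

/-- a monotone chain of memories, each step at most one non-edge -/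
theorem chain (G : SimpleGraph (Fin n)) (V : Finset (Finset (Fin k → Fin n)))
    (W : ℕ → Finset (Fin k → Fin n)) (M : ℕ) (h0 : W 0 = ∅) (hV : ∀ m ≤ M, W m ∈ V)
    (hs : ∀ m < M, W m ⊆ W (m + 1) ∧ (W (m + 1) = W m ∨
      ∃ (i j : Fin k) (a b : Fin n), i ≠ j ∧ ¬ G.Adj a b ∧
        ∀ v ∈ W (m + 1), v ∈ W m ∨ (v i = a ∧ v j = b))) :
    ∀ m ≤ M, ∃ (T : ℕ) (e : (Fin k → Fin n) → ℕ), Der G V (W m) T e ∧
      (∀ v, e v = if v ∈ W m then 1 else 0) ∧ T ≤ m := by
  intro m
  induction m with
  | zero =>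
    intro _
    exact ⟨0, fun _ => 0, by rw [h0]; exact Der.start, by intro v; rw [h0]; simp, le_refl _⟩
  | succ m ih =>
    intro hm
    obtain ⟨T, e, hD, he, hT⟩ := ih (by omega)
    obtain ⟨hsub, hc⟩ := hs m (by omega)
    rcases hc with hc | ⟨i, j, a, b, hij, hab, hc⟩
    · exact ⟨T, e, by rw [hc]; exact hD, by intro v; rw [hc]; exact he v, by omega⟩
    · refine ⟨T + 1, _, Der.look (W (m + 1)) i j a b hD (hV _ hm) hij hab hc, ?_, by omega⟩
      intro v
      by_cases h1 : v ∈ W m
      · have h2 := hsub h1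
        simp [he v, h1, h2]
      · by_cases h2 : v ∈ W (m + 1) <;> simp [he v, h1, h2]

/-- the box of a tuple -/
def box (u h : ℕ) (huk : u ≤ k) (v : Fin k → Fin n) : Fin u → Fin (n / h + 1) :=
  fun i => ⟨(v (Fin.castLE huk i)).val / h,
    Nat.lt_succ_of_le (Nat.div_le_div_right (v (Fin.castLE huk i)).isLt.le)⟩

/-- the number of the box -/
def cod (u h : ℕ) (huk : u ≤ k) (v : Fin k → Fin n) : ℕ :=
  (finFunctionFinEquiv (box u h huk v)).val

theorem cod_lt (u h : ℕ) (huk : u ≤ k) (v : Fin k → Fin n) :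
    cod u h huk v < (n / h + 1) ^ u :=
  (finFunctionFinEquiv (box u h huk v)).isLt

/-- pairs of places in a box -/
abbrev Pr (u h : ℕ) := (Fin u × Fin h) × (Fin u × Fin h)

theorem card_Pr (u h : ℕ) : Fintype.card (Pr u h) = (u * h) ^ 2 := by
  simp [Pr, Fintype.card_prod, Fintype.card_fin]
  ring

noncomputable def num (u h : ℕ) : Pr u h ≃ Fin ((u * h) ^ 2) :=
  Fintype.equivFinOfCardEq (card_Pr u h)

/-- the tuple `v` sits at the two places -/
def At (u h : ℕ) (huk : u ≤ k) (lam : Fin u × Fin h → Fin (u - 1)) (e : Pr u h)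
    (v : Fin k → Fin n) : Prop :=
  e.1.1 ≠ e.2.1 ∧ lam e.1 = lam e.2 ∧ (v (Fin.castLE huk e.1.1)).val % h = e.1.2.val ∧
    (v (Fin.castLE huk e.2.1)).val % h = e.2.2.val

open Classical in
/-- the memories -/
noncomputable def S (u h : ℕ) (huk : u ≤ k) (c : ℕ) (lam : Fin u × Fin h → Fin (u - 1)) (t : ℕ) :
    Finset (Fin k → Fin n) :=
  Finset.univ.filter (fun v => cod u h huk v < c ∨
    (cod u h huk v = c ∧ ∃ e : Pr u h, (num u h e).val < t ∧ At u h huk lam e v))

theorem mem_S {u h : ℕ} {huk : u ≤ k} {c : ℕ} {lam : Fin u × Fin h → Fin (u - 1)} {t : ℕ}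
    {v : Fin k → Fin n} : v ∈ S u h huk c lam t ↔ cod u h huk v < c ∨
    (cod u h huk v = c ∧ ∃ e : Pr u h, (num u h e).val < t ∧ At u h huk lam e v) := by
  classical
  unfold S
  rw [Finset.mem_filter]
  exact ⟨fun hx => hx.2, fun hx => ⟨Finset.mem_univ _, hx⟩⟩

theorem S_mono {u h : ℕ} {huk : u ≤ k} {c : ℕ} {lam : Fin u × Fin h → Fin (u - 1)} {t : ℕ} :
    (S u h huk c lam t : Finset (Fin k → Fin n)) ⊆ S u h huk c lam (t + 1) := by
  intro v hv
  rw [mem_S] at hv ⊢
  rcases hv with hv | ⟨hc, e, he, hA⟩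
  · exact Or.inl hv
  · exact Or.inr ⟨hc, e, by omega, hA⟩

/-- the vertex of a box at a place -/
theorem S_step {u h : ℕ} {huk : u ≤ k} {c : ℕ} {lam : Fin u × Fin h → Fin (u - 1)} {t : ℕ}
    (ht : t < (u * h) ^ 2) {v : Fin k → Fin n} (hv : v ∈ S u h huk c lam (t + 1)) :
    v ∈ S u h huk c lam t ∨
      (cod u h huk v = c ∧ At u h huk lam ((num u h).symm ⟨t, ht⟩) v) := by
  rw [mem_S] at hv
  rcases hv with hv | ⟨hc, e, he, hA⟩
  · exact Or.inl (mem_S.2 (Or.inl hv))
  · by_cases h1 : (num u h e).val < t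
    · exact Or.inl (mem_S.2 (Or.inr ⟨hc, e, h1, hA⟩))
    · have h2 : num u h e = ⟨t, ht⟩ := Fin.ext (by simp; omega)
      have h3 : (num u h).symm ⟨t, ht⟩ = e := by rw [← h2]; simp
      rw [h3]
      exact Or.inr ⟨hc, hA⟩

/-- the labels in the box `c` -/
noncomputable def lab {u : ℕ} (h : ℕ) (hu : 2 ≤ u) (g : Fin n → Fin (u - 1)) (c : ℕ) :
    Fin u × Fin h → Fin (u - 1) := fun p =>
  if hc : c < (n / h + 1) ^ u then
    if hx : ((finFunctionFinEquiv.symm (⟨c, hc⟩ : Fin ((n / h + 1) ^ u))) p.1).val * h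
        + p.2.val < n then g ⟨_, hx⟩ else ⟨0, by omega⟩
  else ⟨0, by omega⟩

theorem box_of_cod {u h : ℕ} {huk : u ≤ k} {c : ℕ} {v : Fin k → Fin n}
    (hc : c < (n / h + 1) ^ u) (hv : cod u h huk v = c) :
    (finFunctionFinEquiv.symm (⟨c, hc⟩ : Fin ((n / h + 1) ^ u))) = box u h huk v := by
  have h1 : (⟨c, hc⟩ : Fin ((n / h + 1) ^ u)) = finFunctionFinEquiv (box u h huk v) :=
    Fin.ext (by simp only []; rw [← hv]; rfl)
  rw [h1, Equiv.symm_apply_apply]

theorem place {u h : ℕ} {huk : u ≤ k} {c : ℕ} {v : Fin k → Fin n}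
    (hc : c < (n / h + 1) ^ u) (hv : cod u h huk v = c) (i : Fin u) :
    ((finFunctionFinEquiv.symm (⟨c, hc⟩ : Fin ((n / h + 1) ^ u))) i).val * h
      + (v (Fin.castLE huk i)).val % h = (v (Fin.castLE huk i)).val := by
  rw [box_of_cod hc hv]
  have := Nat.div_add_mod (v (Fin.castLE huk i)).val h
  simp only [box]
  rw [Nat.mul_comm]
  exact this

theorem lab_eq {u h : ℕ} {hu : 2 ≤ u} {huk : u ≤ k} {g : Fin n → Fin (u - 1)} {c : ℕ}
    {v : Fin k → Fin n} (hc : c < (n / h + 1) ^ u) (hv : cod u h huk v = c) (i : Fin u)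
    (x : Fin h) (hx : (v (Fin.castLE huk i)).val % h = x.val) :
    lab h hu g c (i, x) = g (v (Fin.castLE huk i)) := by
  have h1 := place hc hv i
  rw [hx] at h1
  unfold lab
  rw [dif_pos hc]
  simp only []
  have h2 : ((finFunctionFinEquiv.symm (⟨c, hc⟩ : Fin ((n / h + 1) ^ u))) i).val * h
      + x.val < n := by rw [h1]; exact (v _).isLt
  rw [dif_pos h2]
  congr 1
  exact Fin.ext h1

theorem step_look {u h : ℕ} (hu : 2 ≤ u) (huk : u ≤ k) (G : SimpleGraph (Fin n))
    (g : Fin n → Fin (u - 1)) (hG : ∀ a b, G.Adj a b ↔ g a ≠ g b) (c t : ℕ)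
    (hc : c < (n / h + 1) ^ u) (ht : t < (u * h) ^ 2) :
    (S u h huk c (lab h hu g c) (t + 1) : Finset (Fin k → Fin n))
        = S u h huk c (lab h hu g c) t ∨
      ∃ (i j : Fin k) (a b : Fin n), i ≠ j ∧ ¬ G.Adj a b ∧
        ∀ v ∈ S u h huk c (lab h hu g c) (t + 1),
          v ∈ S u h huk c (lab h hu g c) t ∨ (v i = a ∧ v j = b) := by
  by_cases hE : (S u h huk c (lab h hu g c) (t + 1) : Finset (Fin k → Fin n))
        ⊆ S u h huk c (lab h hu g c) t
  · exact Or.inl (Finset.Subset.antisymm hE S_mono)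
  · right
    rw [Finset.not_subset] at hE
    obtain ⟨w, hw, hw'⟩ := hE
    obtain h1 | ⟨hwc, hwA⟩ := S_step ht hw
    · exact absurd h1 hw'
    · set e := (num u h).symm ⟨t, ht⟩ with he
      obtain ⟨hA1, hA2, hA3, hA4⟩ := hwA
      refine ⟨Fin.castLE huk e.1.1, Fin.castLE huk e.2.1, w (Fin.castLE huk e.1.1),
        w (Fin.castLE huk e.2.1), ?_, ?_, ?_⟩
      · intro h2
        exact hA1 (Fin.castLE_injective huk h2)
      · rw [hG]
        intro h2
        apply h2
        have h3 := lab_eq (hu := hu) (g := g) hc hwc e.1.1 e.1.2 hA3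
        have h4 := lab_eq (hu := hu) (g := g) hc hwc e.2.1 e.2.2 hA4
        rw [← h3, ← h4]
        exact hA2
      · intro v hv
        obtain h1 | ⟨hvc, hvA⟩ := S_step ht hv
        · exact Or.inl h1
        · right
          obtain ⟨_, _, hB3, hB4⟩ := hvA
          rw [← he] at hB3 hB4
          constructor
          · apply Fin.ext
            rw [← place hc hvc e.1.1, ← place hc hwc e.1.1, hB3, hA3]
          · apply Fin.ext
            rw [← place hc hvc e.2.1, ← place hc hwc e.2.1, hB4, hA4]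

theorem box_end {u h : ℕ} (hu : 2 ≤ u) (hh : 1 ≤ h) (huk : u ≤ k)
    (g : Fin n → Fin (u - 1)) (c : ℕ) (hc : c < (n / h + 1) ^ u)
    (lam : Fin u × Fin h → Fin (u - 1)) :
    (S u h huk (c + 1) lam 0 : Finset (Fin k → Fin n))
      = S u h huk c (lab h hu g c) ((u * h) ^ 2) := by
  ext v
  rw [mem_S, mem_S]
  constructor
  · rintro (h1 | ⟨_, e, he, _⟩)
    · rcases Nat.lt_succ_iff_lt_or_eq.1 h1 with h2 | h2
      · exact Or.inl h2
      · right
        refine ⟨h2, ?_⟩
        have hpig : ∃ i j : Fin u, i ≠ j ∧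
            g (v (Fin.castLE huk i)) = g (v (Fin.castLE huk j)) := by
          apply Fintype.exists_ne_map_eq_of_card_lt (fun i : Fin u => g (v (Fin.castLE huk i)))
          rw [Fintype.card_fin, Fintype.card_fin]
          omega
        obtain ⟨i, j, hij, hgij⟩ := hpig
        refine ⟨((i, ⟨(v (Fin.castLE huk i)).val % h, Nat.mod_lt _ (by omega)⟩),
          (j, ⟨(v (Fin.castLE huk j)).val % h, Nat.mod_lt _ (by omega)⟩)), Fin.isLt _, hij, ?_,
          rfl, rfl⟩
        rw [lab_eq hc h2 i _ rfl, lab_eq hc h2 j _ rfl]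
        exact hgij
    · omega
  · rintro (h1 | ⟨h1, _⟩)
    · left; omega
    · left; omega

/-- the number of the first `u` vertices of a tuple -/
def cod' (u : ℕ) (huk : u ≤ k) (v : Fin k → Fin n) : ℕ :=
  (finFunctionFinEquiv (fun i : Fin u => v (Fin.castLE huk i))).val

/-- in a graph without `u`-clique each `u`-tuple has a non-edge -/
theorem exists_nonadj {u : ℕ} {G : SimpleGraph (Fin n)} (hG : G.CliqueFree u)
    (y : Fin u → Fin n) : ∃ i j : Fin u, i ≠ j ∧ ¬ G.Adj (y i) (y j) := by
  by_contra hcon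
  push Not at hcon
  have hinj : Function.Injective y := by
    intro i j hij
    by_contra hne
    have := hcon i j hne
    rw [hij] at this
    exact G.loopless.irrefl _ this
  refine hG (Finset.univ.map ⟨y, hinj⟩) ?_
  rw [SimpleGraph.isNClique_iff]
  constructor
  · intro a ha b hb hab
    simp only [Finset.coe_map, Function.Embedding.coeFn_mk, Finset.coe_univ,
      Set.image_univ, Set.mem_range] at ha hb
    obtain ⟨i, rfl⟩ := ha
    obtain ⟨j, rfl⟩ := hb
    exact hcon i j (fun h => hab (by rw [h]))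
  · simp

end Up

open Up in
/-- Exhaustive search over the first `u` positions, for every graph without `u`-clique. -/
theorem brute (u k n : ℕ) (huk : u ≤ k) :
    ∃ V : Finset (Finset (Fin k → Fin n)), V.card ≤ n ^ u + 1 ∧
      ∀ G : SimpleGraph (Fin n), G.CliqueFree u →
        ∃ (T : ℕ) (e : (Fin k → Fin n) → ℕ), Der G V Finset.univ T e ∧ (∀ v, e v ≤ 1) ∧
          T ≤ n ^ u := by
  classical
  refine ⟨(Finset.range (n ^ u + 1)).image (fun m =>
    Finset.univ.filter (fun v : Fin k → Fin n => cod' u huk v < m)), ?_, ?_⟩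
  · exact le_trans Finset.card_image_le (by rw [Finset.card_range])
  · intro G hG
    obtain ⟨T, e, hD, he, hT⟩ := chain G ((Finset.range (n ^ u + 1)).image (fun m =>
        Finset.univ.filter (fun v : Fin k → Fin n => cod' u huk v < m)))
      (fun m => Finset.univ.filter (fun v : Fin k → Fin n => cod' u huk v < m)) (n ^ u)
      (by simp)
      (by
        intro m hm
        exact Finset.mem_image.2 ⟨m, Finset.mem_range.2 (by omega), rfl⟩)
      (by
        intro m hm
        refine ⟨?_, Or.inr ?_⟩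
        · intro v hv
          simp only [Finset.mem_filter, Finset.mem_univ, true_and] at hv ⊢
          omega
        · obtain ⟨i, j, hij, hna⟩ := exists_nonadj hG
            (finFunctionFinEquiv.symm (⟨m, hm⟩ : Fin (n ^ u)))
          refine ⟨Fin.castLE huk i, Fin.castLE huk j, _, _,
            fun h => hij (Fin.castLE_injective huk h), hna, ?_⟩
          intro v hv
          simp only [Finset.mem_filter, Finset.mem_univ, true_and] at hv ⊢
          by_cases h1 : cod' u huk v < m
          · exact Or.inl h1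
          · right
            have h2 : cod' u huk v = m := by omega
            have h3 : (⟨m, hm⟩ : Fin (n ^ u))
                = finFunctionFinEquiv (fun i : Fin u => v (Fin.castLE huk i)) :=
              Fin.ext h2.symm
            rw [h3, Equiv.symm_apply_apply]
            exact ⟨rfl, rfl⟩)
      (n ^ u) (le_refl _)
    have hfin : (Finset.univ.filter (fun v : Fin k → Fin n => cod' u huk v < n ^ u))
        = Finset.univ := by
      ext v
      simp only [Finset.mem_filter, Finset.mem_univ, true_and, iff_true]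
      exact (finFunctionFinEquiv (fun i : Fin u => v (Fin.castLE huk i))).isLt
    rw [hfin] at hD
    refine ⟨T, e, hD, ?_, hT⟩
    intro v
    rw [he v]
    split_ifs <;> omega

open Up in
/-- Search with memory blocks of length `h` for complete `(u - 1)`-partite graphs: the memory is
the number of a box, the labels in the box and a counter; no tuple is excluded twice. -/
theorem upper (u k n h : ℕ) (hu : 2 ≤ u) (huk : u ≤ k) (hh : 1 ≤ h) :
    ∃ V : Finset (Finset (Fin k → Fin n)),
      V.card ≤ (n / h + 1) ^ u * u ^ (u * h) * ((u * h) ^ 2 + 1) ∧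
      ∀ (G : SimpleGraph (Fin n)) (g : Fin n → Fin (u - 1)),
        (∀ a b, G.Adj a b ↔ g a ≠ g b) →
        ∃ (T : ℕ) (e : (Fin k → Fin n) → ℕ), Der G V Finset.univ T e ∧ (∀ v, e v ≤ 1) ∧
          T ≤ (n / h + 1) ^ u * (u * h) ^ 2 := by
  classical
  set B := (n / h + 1) ^ u with hB
  set M := (u * h) ^ 2 with hM
  have hMpos : 0 < M := by positivity
  have hBpos : 0 < B := by positivity
  refine ⟨Finset.univ.image (fun p : Fin B × (Fin u × Fin h → Fin (u - 1)) × Fin (M + 1) =>
    S u h huk p.1.val p.2.1 p.2.2.val), ?_, ?_⟩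
  · refine le_trans Finset.card_image_le ?_
    rw [Finset.card_univ, Fintype.card_prod, Fintype.card_prod, Fintype.card_fin,
      Fintype.card_fin, Fintype.card_fun, Fintype.card_prod, Fintype.card_fin, Fintype.card_fin,
      Fintype.card_fin, ← mul_assoc]
    gcongr
    omega
  · intro G g hG
    have hmemV : ∀ c < B, ∀ lam : Fin u × Fin h → Fin (u - 1), ∀ t ≤ M,
        (S u h huk c lam t : Finset (Fin k → Fin n)) ∈
          Finset.univ.image (fun p : Fin B × (Fin u × Fin h → Fin (u - 1)) × Fin (M + 1) =>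
            (S u h huk p.1.val p.2.1 p.2.2.val : Finset (Fin k → Fin n))) := by
      intro c hc lam t ht
      exact Finset.mem_image.2 ⟨(⟨c, hc⟩, lam, ⟨t, by omega⟩), Finset.mem_univ _, rfl⟩
    have hnext : ∀ m < B * M, (S u h huk ((m + 1) / M) (lab h hu g ((m + 1) / M)) ((m + 1) % M) :
        Finset (Fin k → Fin n)) = S u h huk (m / M) (lab h hu g (m / M)) (m % M + 1) := by
      intro m hm
      have hc : m / M < B := (Nat.div_lt_iff_lt_mul hMpos).2 hm
      have hmod : m % M < M := Nat.mod_lt _ hMpos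
      have hdm := Nat.div_add_mod m M
      by_cases h1 : m % M + 1 < M
      · have h2 : (m + 1) / M = m / M := by
          rw [Nat.div_eq_iff hMpos]
          have h5 : m / M * M = M * (m / M) := Nat.mul_comm _ _
          constructor <;> omega
        have h3 : (m + 1) % M = m % M + 1 := by
          have h4 := Nat.div_add_mod (m + 1) M
          rw [h2] at h4
          omega
        rw [h2, h3]
      · have h1' : m % M + 1 = M := by omega
        have h2 : m + 1 = M * (m / M + 1) := by rw [mul_add, mul_one]; omega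
        have h3 : (m + 1) / M = m / M + 1 := by rw [h2]; exact Nat.mul_div_cancel_left _ hMpos
        have h4 : (m + 1) % M = 0 := by rw [h2]; exact Nat.mul_mod_right _ _
        rw [h3, h4, h1']
        exact box_end hu hh huk g _ hc _
    have hBM : 0 < B * M := Nat.mul_pos hBpos hMpos
    obtain ⟨T, e, hD, he, hT⟩ := chain G _
      (fun m => S u h huk (m / M) (lab h hu g (m / M)) (m % M)) (B * M)
      (by
        ext v
        simp only [Nat.zero_div, Nat.zero_mod]
        rw [mem_S]
        simp)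
      (by
        intro m hm
        rcases Nat.lt_or_eq_of_le hm with h1 | h1
        · exact hmemV _ ((Nat.div_lt_iff_lt_mul hMpos).2 h1) _ _ (Nat.mod_lt _ hMpos).le
        · have h2 := hnext (m - 1) (by omega)
          have h3 : m - 1 + 1 = m := by omega
          rw [h3] at h2
          rw [h2]
          refine hmemV _ ((Nat.div_lt_iff_lt_mul hMpos).2 (by omega)) _ _ ?_
          have := Nat.mod_lt (m - 1) hMpos
          omega)
      (by
        intro m hm
        rw [hnext m hm]
        exact ⟨S_mono, step_look hu huk G g hG _ _ ((Nat.div_lt_iff_lt_mul hMpos).2 hm)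
          (Nat.mod_lt _ hMpos)⟩)
      (B * M) (le_refl _)
    have hfin : (S u h huk (B * M / M) (lab h hu g (B * M / M)) (B * M % M) :
        Finset (Fin k → Fin n)) = Finset.univ := by
      rw [Nat.mul_div_cancel _ hMpos, Nat.mul_mod_left]
      ext v
      rw [mem_S]
      simp only [Finset.mem_univ, iff_true]
      exact Or.inl (cod_lt u h huk v)
    rw [hfin] at hD
    refine ⟨T, e, hD, ?_, hT⟩
    intro v
    rw [he v]
    split_ifs <;> omega

end Pool.Agent.KCM
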